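import Mathlib

-- part MP_8fd8e7_al.Trace
section

/-! Traces of products of cross-product matrices: twice a product of dot products over a perfect
matching is an integral combination of full-length traces. -/

namespace Pool.Agent.MP_8fd8e7_al

open Matrix

variable {C : Type} [CommRing C] {ι : Type}

def crossM (θ : Fin 3 → C) : Matrix (Fin 3) (Fin 3) C :=
  !![0, -θ 2, θ 1; θ 2, 0, -θ 0; -θ 1, θ 0, 0]

def dot (a b : Fin 3 → C) : C := a 0 * b 0 + a 1 * b 1 + a 2 * b 2

theorem dot_comm (a b : Fin 3 → C) : dot a b = dot b a := by unfold dot; ring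

theorem dot_lin (a b x : Fin 3 → C) (s t : C) :
    dot (s • a + t • b) x = s * dot a x + t * dot b x := by
  simp only [dot, Pi.add_apply, Pi.smul_apply, smul_eq_mul]; ring

theorem dot_lin' (a b x : Fin 3 → C) (s t : C) :
    dot x (s • a + t • b) = s * dot x a + t * dot x b := by
  simp only [dot, Pi.add_apply, Pi.smul_apply, smul_eq_mul]; ring

theorem cross3 (a b c : Fin 3 → C) :
    crossM (dot b c • a + dot a b • c) =
      -(crossM a * (crossM b * crossM c)) - crossM c * (crossM b * crossM a) := by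
  ext i j
  fin_cases i <;> fin_cases j <;>
    simp [crossM, dot] <;> ring

def prodM (θ : ι → Fin 3 → C) (w : List ι) : Matrix (Fin 3) (Fin 3) C :=
  (w.map fun a => crossM (θ a)).prod

@[simp] theorem prodM_nil (θ : ι → Fin 3 → C) : prodM θ [] = 1 := rfl

@[simp] theorem prodM_cons (θ : ι → Fin 3 → C) (a : ι) (w : List ι) :
    prodM θ (a :: w) = crossM (θ a) * prodM θ w := by simp [prodM]

theorem prodM_append (θ : ι → Fin 3 → C) (w w' : List ι) :
    prodM θ (w ++ w') = prodM θ w * prodM θ w' := by simp [prodM]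

def Tr (w : List ι) (θ : ι → Fin 3 → C) : C := (prodM θ w).trace

def HH (C : Type) [CommRing C] (L : List ι) : AddSubgroup ((ι → Fin 3 → C) → C) :=
  AddSubgroup.closure {y | ∃ w : List ι, w.Perm L ∧ y = Tr w}

theorem HH_perm {L L' : List ι} (h : L.Perm L') : HH C L = HH C L' := by
  unfold HH
  congr 1
  ext y
  exact ⟨fun ⟨w, hw, e⟩ => ⟨w, hw.trans h, e⟩, fun ⟨w, hw, e⟩ => ⟨w, hw.trans h.symm, e⟩⟩

theorem Tr_mem {w L : List ι} (h : w.Perm L) : Tr w ∈ HH C L :=
  AddSubgroup.subset_closure ⟨w, h, rfl⟩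

def Mt : List ι → (ι → Fin 3 → C) → C
  | a :: b :: l => fun θ => dot (θ a) (θ b) * Mt l θ
  | _ => fun _ => 1

@[simp] theorem Mt_nil (θ : ι → Fin 3 → C) : Mt [] θ = 1 := rfl

@[simp] theorem Mt_cons (a b : ι) (l : List ι) (θ : ι → Fin 3 → C) :
    Mt (a :: b :: l) θ = dot (θ a) (θ b) * Mt l θ := rfl

theorem even_ind {P : List ι → Prop} (h0 : P []) (h2 : ∀ a b l, Even l.length → P l → P (a :: b :: l)) :
    ∀ l : List ι, Even l.length → P l
  | [], _ => h0
  | [_], h => by simp at h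
  | a :: b :: l, h => by
    have : Even l.length := by
      simp only [List.length_cons] at h
      rcases h with ⟨k, hk⟩
      exact ⟨k - 1, by omega⟩
    exact h2 a b l this (even_ind h0 h2 l this)

theorem Mt_append (l l' : List ι) (h : Even l.length) (θ : ι → Fin 3 → C) :
    Mt (l ++ l') θ = Mt l θ * Mt l' θ := by
  revert l
  refine even_ind (by simp) ?_
  intro a b l _ ih
  simp [ih, mul_assoc]

variable [DecidableEq ι]

theorem prodM_update (θ : ι → Fin 3 → C) (a : ι) (z : Fin 3 → C) (w : List ι) (h : a ∉ w) :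
    prodM (Function.update θ a z) w = prodM θ w := by
  unfold prodM
  congr 1
  refine List.map_congr_left fun x hx => ?_
  rw [Function.update_of_ne (by rintro rfl; exact h hx)]

theorem Mt_update (θ : ι → Fin 3 → C) (a : ι) (z : Fin 3 → C) :
    ∀ w : List ι, a ∉ w → Mt w (Function.update θ a z) = Mt w θ
  | [], _ => rfl
  | [_], _ => rfl
  | p :: q :: w, h => by
    simp only [List.mem_cons, not_or] at h
    rw [Mt_cons, Mt_cons, Mt_update θ a z w h.2.2, Function.update_of_ne (Ne.symm h.1),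
      Function.update_of_ne (Ne.symm h.2.1)]

theorem sub_mem_HH {L : List ι} (hL : L.Nodup) {a : ι} (ha : a ∈ L) (b c : ι)
    {y : (ι → Fin 3 → C) → C} (hy : y ∈ HH C L) :
    (fun θ => y (Function.update θ a (dot (θ b) (θ c) • θ a + dot (θ a) (θ b) • θ c))) ∈
      HH C (b :: c :: L) := by
  induction hy using AddSubgroup.closure_induction with
  | mem y hy =>
    obtain ⟨w, hw, rfl⟩ := hy
    have haw : a ∈ w := hw.symm.subset ha
    obtain ⟨w1, w2, rfl⟩ := List.append_of_mem haw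
    have hn : (w1 ++ a :: w2).Nodup := hw.symm.nodup hL
    have h1 : a ∉ w1 := fun h => (List.nodup_append.1 hn).2.2 a h a (by simp) rfl
    have h2 : a ∉ w2 := (List.nodup_cons.1 (List.nodup_append.1 hn).2.1).1
    have e : (fun θ : ι → Fin 3 → C => Tr (w1 ++ a :: w2)
        (Function.update θ a (dot (θ b) (θ c) • θ a + dot (θ a) (θ b) • θ c))) =
        -Tr (w1 ++ a :: b :: c :: w2) - Tr (w1 ++ c :: b :: a :: w2) := by
      funext θ
      simp only [Tr, prodM_append, prodM_cons, prodM_update _ _ _ _ h1, prodM_update _ _ _ _ h2,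
        Function.update_self, cross3, Pi.sub_apply, Pi.neg_apply, Matrix.sub_mul, Matrix.mul_sub,
        Matrix.neg_mul, Matrix.mul_neg, trace_sub, trace_neg, Matrix.mul_assoc]
    rw [e]
    refine sub_mem (neg_mem (Tr_mem ?_)) (Tr_mem ?_)
    · refine List.Perm.trans ?_ ((hw.cons c).cons b)
      rw [List.perm_iff_count]
      intro x
      simp only [List.count_append, List.count_cons]
      omega
    · refine List.Perm.trans ?_ ((hw.cons c).cons b)
      rw [List.perm_iff_count]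
      intro x
      simp only [List.count_append, List.count_cons]
      omega
  | zero => exact zero_mem _
  | add y y' _ _ h h' => exact add_mem h h'
  | neg y _ h => exact neg_mem h

/-- the switch element on the four-cycle `p q r s` -/
def Sw (p q r s : ι) (l : List ι) (θ : ι → Fin 3 → C) : C :=
  (dot (θ p) (θ q) * dot (θ r) (θ s) + dot (θ p) (θ s) * dot (θ q) (θ r)) * Mt l θ

def IH (C : Type) [CommRing C] (ι : Type) (k : ℕ) : Prop :=
  ∀ (p q r s : ι) (l : List ι), l.length = 2 * k → (p :: q :: r :: s :: l).Nodup →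
    Sw p q r s l ∈ HH C (p :: q :: r :: s :: l)

omit [DecidableEq ι] in
theorem IH_zero : IH C ι 0 := by
  intro p q r s l hl _
  have : l = [] := List.length_eq_zero_iff.1 (by simpa using hl)
  subst this
  have e : (Sw p q r s [] : (ι → Fin 3 → C) → C) = Tr [p, q, r, s] := by
    funext θ
    simp [Sw, Tr, prodM, crossM, dot, Matrix.trace_fin_three]
    ring
  rw [e]
  exact Tr_mem (List.Perm.refl _)

theorem perm_of_count {l l' : List ι} (h : ∀ x, l.count x = l'.count x) : l.Perm l' :=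
  List.perm_iff_count.2 h

theorem stepS {k : ℕ} (ih : IH C ι k) (p q r s b c : ι) (l : List ι) (hl : l.length = 2 * k)
    (hn : (p :: q :: r :: s :: l).Nodup) :
    Sw p q r s (b :: c :: l) + Sw p q c s (r :: b :: l) ∈ HH C (b :: c :: p :: q :: r :: s :: l) := by
  have h := sub_mem_HH hn (a := r) (by simp) b c (ih p q r s l hl hn)
  simp only [List.nodup_cons, List.mem_cons, not_or] at hn
  obtain ⟨⟨-, hpr, -, -⟩, ⟨hqr, -, -⟩, ⟨hrs, hrl⟩, -⟩ := hn
  refine (congrArg (· ∈ HH C (b :: c :: p :: q :: r :: s :: l)) ?_).mp h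
  funext θ
  simp only [Sw, Pi.add_apply, Mt_cons, Mt_update _ _ _ _ hrl, Function.update_self,
    Function.update_of_ne hpr, Function.update_of_ne hqr, Function.update_of_ne (Ne.symm hrs),
    dot_lin, dot_lin']
  ring

theorem stepE {k : ℕ} (ih : IH C ι k) (p q r s b c : ι) (l : List ι) (hl : l.length = 2 * k)
    (hn : (b :: c :: p :: q :: r :: s :: l).Nodup) :
    Sw p q r s (b :: c :: l) + Sw p q s r (b :: c :: l) ∈ HH C (b :: c :: p :: q :: r :: s :: l) := by
  have n1 : (p :: q :: r :: s :: l).Nodup := (List.nodup_cons.1 (List.nodup_cons.1 hn).2).2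
  have P2 : (b :: r :: q :: p :: s :: c :: l).Perm (b :: c :: p :: q :: r :: s :: l) :=
    perm_of_count fun x => by simp only [List.count_cons]; omega
  have P3 : (b :: s :: p :: q :: c :: r :: l).Perm (b :: c :: p :: q :: r :: s :: l) :=
    perm_of_count fun x => by simp only [List.count_cons]; omega
  have n2 := (List.nodup_cons.1 (List.nodup_cons.1 (P2.symm.nodup hn)).2).2
  have n3 := (List.nodup_cons.1 (List.nodup_cons.1 (P3.symm.nodup hn)).2).2
  have h1 := stepS ih p q r s b c l hl n1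
  have h2 := stepS ih q p s c b r l hl n2
  have h3 := stepS ih p q c r b s l hl n3
  rw [HH_perm P2] at h2
  rw [HH_perm P3] at h3
  have e : (Sw p q r s (b :: c :: l) + Sw p q s r (b :: c :: l) : (ι → Fin 3 → C) → C) =
      (Sw p q r s (b :: c :: l) + Sw p q c s (r :: b :: l)) -
      (Sw q p s c (b :: r :: l) + Sw q p r c (s :: b :: l)) +
      (Sw p q c r (b :: s :: l) + Sw p q s r (c :: b :: l)) := by
    funext θ
    simp only [Sw, Pi.add_apply, Pi.sub_apply, Mt_cons, dot]
    ring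
  rw [e]
  exact add_mem (sub_mem h1 h2) h3

theorem switch {k : ℕ} (ih : IH C ι k) (p q r s b c : ι) (l : List ι) (hl : l.length = 2 * k)
    (hn : (b :: c :: p :: q :: r :: s :: l).Nodup) :
    Mt (p :: q :: r :: s :: b :: c :: l) - Mt (p :: s :: q :: r :: b :: c :: l) ∈
      HH C (b :: c :: p :: q :: r :: s :: l) := by
  have P2 : (b :: c :: p :: s :: r :: q :: l).Perm (b :: c :: p :: q :: r :: s :: l) :=
    perm_of_count fun x => by simp only [List.count_cons]; omega
  have h1 := stepE ih p q r s b c l hl hn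
  have h2 := stepE ih p s r q b c l hl (P2.symm.nodup hn)
  rw [HH_perm P2] at h2
  have e : (Mt (p :: q :: r :: s :: b :: c :: l) - Mt (p :: s :: q :: r :: b :: c :: l) :
      (ι → Fin 3 → C) → C) =
      (Sw p q r s (b :: c :: l) + Sw p q s r (b :: c :: l)) -
      (Sw p s r q (b :: c :: l) + Sw p s q r (b :: c :: l)) := by
    funext θ
    simp only [Sw, Pi.add_apply, Pi.sub_apply, Mt_cons, dot]
    ring
  rw [e]
  exact sub_mem h1 h2

theorem adj_swap {k : ℕ} (ih : IH C ι k) (L : List ι) (hL : L.length = 2 * k + 6) (hn : L.Nodup)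
    (pre : List ι) (a b : ι) (l : List ι) (h : (pre ++ a :: b :: l).Perm L) :
    Mt (pre ++ a :: b :: l) - Mt (pre ++ b :: a :: l) ∈ HH C L := by
  have hlen := h.length_eq
  simp only [List.length_append, List.length_cons] at hlen
  rcases Nat.even_or_odd pre.length with he | ho
  · have e : (Mt (pre ++ a :: b :: l) - Mt (pre ++ b :: a :: l) : (ι → Fin 3 → C) → C) = 0 := by
      funext θ
      simp only [Pi.sub_apply, Mt_append _ _ he, Mt_cons, dot_comm (θ a) (θ b), sub_self,
        Pi.zero_apply]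
    rw [e]
    exact zero_mem _
  · obtain ⟨m, hm⟩ := ho
    obtain ⟨pre', x, rfl⟩ : ∃ pre' x, pre = pre' ++ [x] := by
      rcases List.eq_nil_or_concat pre with h0 | ⟨p', x, h0⟩
      · subst h0; simp at hm
      · exact ⟨p', x, by simpa using h0⟩
    simp only [List.length_append, List.length_cons, List.length_nil] at hm hlen
    have he : Even pre'.length := ⟨m, by omega⟩
    obtain ⟨y, l', rfl⟩ : ∃ y l', l = y :: l' := by
      cases l with
      | nil => simp at hlen; omega
      | cons y l' => exact ⟨y, l', rfl⟩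
    simp only [List.length_cons] at hlen
    obtain ⟨b', c', rest, hr⟩ : ∃ b' c' rest, pre' ++ l' = b' :: c' :: rest := by
      have : (pre' ++ l').length = 2 * k + 2 := by simp only [List.length_append]; omega
      match pre' ++ l', this with
      | b' :: c' :: rest, _ => exact ⟨b', c', rest, rfl⟩
    have hrl : rest.length = 2 * k := by
      have := congrArg List.length hr
      simp only [List.length_append, List.length_cons] at this
      omega
    have P : (b' :: c' :: x :: a :: y :: b :: rest).Perm L := by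
      refine List.Perm.trans ?_ h
      refine perm_of_count fun z => ?_
      have := congrArg (List.count z) hr
      simp only [List.count_cons, List.count_append, List.count_nil] at this ⊢
      omega
    have h1 := switch ih x a y b b' c' rest hrl (P.symm.nodup hn)
    rw [HH_perm P] at h1
    have e : (Mt (pre' ++ [x] ++ a :: b :: y :: l') - Mt (pre' ++ [x] ++ b :: a :: y :: l') :
        (ι → Fin 3 → C) → C) =
        Mt (x :: a :: y :: b :: b' :: c' :: rest) - Mt (x :: b :: a :: y :: b' :: c' :: rest) := by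
      funext θ
      have := Mt_append pre' l' he θ
      rw [hr] at this
      simp only [Pi.sub_apply, List.append_assoc, List.singleton_append, Mt_append _ _ he]
      rw [Mt_cons x a, Mt_cons b y, Mt_cons x b, Mt_cons a y, Mt_cons x a, Mt_cons y b,
        Mt_cons x b, Mt_cons a y, this, dot_comm (θ y) (θ b)]
      ring
    rw [e]
    exact h1

theorem perm_congr {k : ℕ} (ih : IH C ι k) (L : List ι) (hL : L.length = 2 * k + 6) (hn : L.Nodup)
    {l l' : List ι} (h : l.Perm l') :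
    ∀ pre : List ι, (pre ++ l).Perm L → Mt (pre ++ l) - Mt (pre ++ l') ∈ HH C L := by
  induction h with
  | nil => intro pre _; rw [sub_self]; exact zero_mem _
  | cons x _ ih' =>
    intro pre hp
    have := ih' (pre ++ [x]) (by simpa using hp)
    simpa using this
  | swap x y l => intro pre hp; exact adj_swap ih L hL hn pre y x l hp
  | trans h1 _ ih1 ih2 =>
    intro pre hp
    have a1 := ih1 pre hp
    have a2 := ih2 pre (((h1.append_left pre).symm).trans hp)
    have := add_mem a1 a2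
    simpa using this

/-- integral combinations of matchings, with the sum of the coefficients -/
def CC (C : Type) [CommRing C] (L : List ι) : AddSubgroup (ℤ × ((ι → Fin 3 → C) → C)) :=
  AddSubgroup.closure {y | ∃ l : List ι, l.Perm L ∧ y = (1, Mt l)}

omit [DecidableEq ι] in
theorem CC_perm {L L' : List ι} (h : L.Perm L') : CC C L = CC C L' := by
  unfold CC
  congr 1
  ext y
  exact ⟨fun ⟨w, hw, e⟩ => ⟨w, hw.trans h, e⟩, fun ⟨w, hw, e⟩ => ⟨w, hw.trans h.symm, e⟩⟩

omit [DecidableEq ι] in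
theorem CC_mul {L : List ι} (a b : ι) {y : ℤ × ((ι → Fin 3 → C) → C)} (hy : y ∈ CC C L) :
    (y.1, fun θ => dot (θ a) (θ b) * y.2 θ) ∈ CC C (a :: b :: L) := by
  induction hy using AddSubgroup.closure_induction with
  | mem y hy =>
    obtain ⟨l, hl, rfl⟩ := hy
    exact AddSubgroup.subset_closure ⟨a :: b :: l, (hl.cons b).cons a, rfl⟩
  | zero =>
    have : ((0 : ℤ × ((ι → Fin 3 → C) → C)).1, fun θ : ι → Fin 3 → C =>
        dot (θ a) (θ b) * (0 : ℤ × ((ι → Fin 3 → C) → C)).2 θ) = 0 := by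
      ext <;> simp
    rw [this]; exact zero_mem _
  | add y y' _ _ h h' =>
    have := add_mem h h'
    refine (congrArg (· ∈ CC C (a :: b :: L)) ?_).mp this
    ext <;> simp [mul_add]
  | neg y _ h =>
    have := neg_mem h
    refine (congrArg (· ∈ CC C (a :: b :: L)) ?_).mp this
    ext <;> simp

def Ch (p q : ι) (w : List ι) (θ : ι → Fin 3 → C) : C := dot (θ p) ((prodM θ w).mulVec (θ q))

theorem ch_rec (p a b q : Fin 3 → C) (W : Matrix (Fin 3) (Fin 3) C) :
    dot p ((crossM a * (crossM b * W)).mulVec q) =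
      dot p b * dot a (W.mulVec q) - dot a b * dot p (W.mulVec q) := by
  simp [crossM, dot, Fin.sum_univ_three, Matrix.mulVec, Matrix.vecMul, dotProduct]
  ring

theorem tr_rec (a b : Fin 3 → C) (W : Matrix (Fin 3) (Fin 3) C) :
    (crossM a * (crossM b * W)).trace = dot a (W.mulVec b) - dot a b * W.trace := by
  simp [crossM, dot, Fin.sum_univ_three, Matrix.mulVec, Matrix.vecMul, dotProduct,
    Matrix.trace_fin_three]
  ring

theorem Ch_mem : ∀ w : List ι, Even w.length → ∀ p q : ι,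
    ((if w = [] then 1 else 0 : ℤ), Ch p q w) ∈ CC C (p :: q :: w) := by
  refine even_ind ?_ ?_
  · intro p q
    refine AddSubgroup.subset_closure ⟨[p, q], List.Perm.refl _, ?_⟩
    ext θ
    · simp
    · simp [Ch]
  · intro a b w _ ih p q
    have h1 := CC_mul p b (ih a q)
    have h2 := CC_mul a b (ih p q)
    rw [CC_perm (L' := p :: q :: a :: b :: w)
      (perm_of_count fun x => by simp only [List.count_cons]; omega)] at h1 h2
    have := sub_mem h1 h2
    refine (congrArg (· ∈ CC C (p :: q :: a :: b :: w)) ?_).mp this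
    ext θ
    · simp
    · simp only [Ch, prodM_cons, ch_rec, Prod.snd_sub, Pi.sub_apply]

theorem Tr_CC : ∀ w : List ι, Even w.length →
    ∃ n : ℤ, (n, Tr w) ∈ CC C w ∧ (if w = [] then n = 3 else (n = 2 ∨ n = -2)) := by
  refine even_ind ?_ ?_
  · refine ⟨3, ?_, by simp⟩
    have h : ((1 : ℤ), (Mt ([] : List ι) : (ι → Fin 3 → C) → C)) ∈ CC C ([] : List ι) :=
      AddSubgroup.subset_closure ⟨[], List.Perm.refl _, rfl⟩
    have := add_mem (add_mem h h) h
    refine (congrArg (· ∈ CC C ([] : List ι)) ?_).mp this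
    ext θ
    · simp
    · simp [Tr]; norm_num
  · intro a b w hw ⟨n, hn, hn'⟩
    have h1 := Ch_mem (C := C) w hw a b
    have h2 := CC_mul a b hn
    refine ⟨(if w = [] then 1 else 0) - n, ?_, ?_⟩
    · have := sub_mem h1 h2
      refine (congrArg (· ∈ CC C (a :: b :: w)) ?_).mp this
      ext θ
      · simp
      · simp only [Ch, Tr, prodM_cons, tr_rec, Prod.snd_sub, Pi.sub_apply]
    · by_cases h : w = []
      · simp only [h, if_true] at hn' ⊢
        simp [hn']
      · simp only [h, if_false] at hn' ⊢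
        simp only [reduceCtorEq, if_false]
        omega

theorem two_Mt_step {k : ℕ} (ih : IH C ι k) (L : List ι) (hL : L.length = 2 * k + 6)
    (hn : L.Nodup) : Mt L + Mt L ∈ HH C L := by
  have key : ∀ y ∈ CC C L, y.2 - y.1 • Mt L ∈ HH C L := by
    intro y hy
    induction hy using AddSubgroup.closure_induction with
    | mem y hy =>
      obtain ⟨l, hl, rfl⟩ := hy
      have := perm_congr ih L hL hn hl [] (by simpa using hl)
      simpa using this
    | zero => simp
    | add y y' _ _ h h' =>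
      have := add_mem h h'
      refine (congrArg (· ∈ HH C L) ?_).mp this
      simp only [Prod.fst_add, Prod.snd_add, add_smul]
      abel
    | neg y _ h =>
      have := neg_mem h
      refine (congrArg (· ∈ HH C L) ?_).mp this
      simp only [Prod.fst_neg, Prod.snd_neg, neg_smul]
      abel
  obtain ⟨n, h1, h2⟩ := Tr_CC (C := C) L ⟨k + 3, by omega⟩
  have hne : L ≠ [] := by rintro rfl; simp at hL
  rw [if_neg hne] at h2
  have h3 : n • Mt L ∈ HH C L := by
    have := sub_mem (Tr_mem (C := C) (List.Perm.refl L)) (key _ h1)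
    simpa using this
  rcases h2 with rfl | rfl
  · rwa [two_zsmul] at h3
  · have := neg_mem h3
    rwa [neg_smul, neg_neg, two_zsmul] at this

theorem IH_succ {k : ℕ} (ih : IH C ι k) : IH C ι (k + 1) := by
  intro p q r s l hl hn
  have hL : (p :: q :: r :: s :: l).length = 2 * k + 6 := by simp only [List.length_cons]; omega
  have h1 := two_Mt_step ih _ hL hn
  have h2 := perm_congr ih _ hL hn (l := p :: q :: r :: s :: l) (l' := p :: s :: q :: r :: l)
    (perm_of_count fun x => by simp only [List.count_cons]; omega) [] (by simp)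
  have := sub_mem h1 h2
  refine (congrArg (· ∈ HH C (p :: q :: r :: s :: l)) ?_).mp this
  funext θ
  simp only [List.nil_append, Pi.sub_apply, Pi.add_apply, Sw, Mt_cons]
  ring

theorem IH_all (k : ℕ) : IH C ι k := by
  induction k with
  | zero => exact IH_zero
  | succ k ih => exact IH_succ ih

theorem two_Mt (k : ℕ) (L : List ι) (hL : L.length = 2 * k + 6) (hn : L.Nodup) :
    Mt L + Mt L ∈ HH C L := two_Mt_step (IH_all k) L hL hn

end Pool.Agent.MP_8fd8e7_al

end

-- part MP_8fd8e7_al.Ladder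
section

/-! A commutative ring with elements `y p q` behaving like products of two anticommuting
generators in three colours.  Traces of products of the matrices `Θ` lie in the subring generated
by the elements `bb u v`. -/

namespace Pool.Agent.MP_8fd8e7_al

open Matrix

structure YS (C : Type) [CommRing C] (ι : Type) where
  y : Fin 3 × ι → Fin 3 × ι → C
  anti : ∀ p q, y p q = -y q p
  diag : ∀ p, y p p = 0
  pl : ∀ p q r t, y p q * y r t = -(y p r * y q t)

namespace YS

variable {C : Type} [CommRing C] {ι : Type} (S : YS C ι)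

def x (i : Fin 3) (u v : ι) : C := S.y (i, u) (i, v)
def cc (u v : ι) : C := S.x 0 u v + S.x 1 u v + S.x 2 u v
def gg (u v : ι) : C := S.x 0 u v * S.x 1 u v + S.x 0 u v * S.x 2 u v + S.x 1 u v * S.x 2 u v
def ss (u v : ι) : C := S.x 0 u v * S.x 1 u v * S.x 2 u v
def bb (u v : ι) : C := (1 + S.x 0 u v) * (1 + S.x 1 u v) * (1 + S.x 2 u v)
def ee (u v : ι) : C := S.cc u v + S.gg u v + S.ss u v
def th (v : ι) : Fin 3 → C := ![S.y (2, v) (1, v), S.y (0, v) (2, v), S.y (1, v) (0, v)]
def Th (v : ι) : Matrix (Fin 3) (Fin 3) C := crossM (S.th v)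
def RR : Subring C := Subring.closure {z | ∃ u v, z = S.bb u v}
def I1 (b : ι) : Ideal C := Ideal.span {z | ∃ l q, z = S.y (l, b) q}
def I2 (b : ι) : Ideal C := Ideal.span {z | ∃ l l', z = S.y (l, b) (l', b)}

theorem ee_mem (u v : ι) : S.ee u v ∈ S.RR := by
  have h : S.ee u v = S.bb u v - 1 := by unfold ee cc gg ss bb; ring
  rw [h]
  exact sub_mem (Subring.subset_closure ⟨u, v, rfl⟩) (one_mem _)

theorem Th_apply (v : ι) (j l : Fin 3) : S.Th v j l = S.y (j, v) (l, v) := by
  fin_cases j <;> fin_cases l <;> simp [Th, crossM, th, S.diag] <;> exact (S.anti _ _).symm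

theorem sh11 (p q t) : S.y p q * S.y p t = 0 := by rw [S.pl, S.diag]; simp
theorem sh12 (p q r) : S.y p q * S.y r p = 0 := by rw [S.anti r p, mul_neg, S.sh11, neg_zero]
theorem sh21 (p q t) : S.y p q * S.y q t = 0 := by rw [S.anti p q, neg_mul, S.sh11, neg_zero]
theorem sh22 (p q r) : S.y p q * S.y r q = 0 := by rw [S.anti p q, neg_mul, S.sh12, neg_zero]

theorem pl' (p q r t) : S.y p q * S.y r t = S.y p t * S.y q r := by
  rw [S.anti r t, mul_neg, S.pl, neg_neg]

theorem I1_mul {b : ι} {z z' : C} (h : z ∈ S.I1 b) (h' : z' ∈ S.I1 b) : z * z' ∈ S.I2 b := by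
  have : S.I1 b * S.I1 b ≤ S.I2 b := by
    unfold I1
    rw [Ideal.span_mul_span', Ideal.span_le]
    rintro _ ⟨_, ⟨l, q, rfl⟩, _, ⟨l', q', rfl⟩, rfl⟩
    show S.y (l, b) q * S.y (l', b) q' ∈ S.I2 b
    rw [S.pl]
    exact neg_mem (Ideal.mul_mem_right _ _ (Ideal.subset_span ⟨l, l', rfl⟩))
  exact this (Ideal.mul_mem_mul h h')

theorem I2_mul {b : ι} {z z' : C} (h : z ∈ S.I2 b) (h' : z' ∈ S.I2 b) : z * z' = 0 := by
  have : S.I2 b * S.I2 b ≤ ⊥ := by
    unfold I2
    rw [Ideal.span_mul_span', Ideal.span_le]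
    rintro _ ⟨_, ⟨l1, l2, rfl⟩, _, ⟨l3, l4, rfl⟩, rfl⟩
    show S.y (l1, b) (l2, b) * S.y (l3, b) (l4, b) ∈ (⊥ : Ideal C)
    rw [Ideal.mem_bot]
    have : ∀ l1 l2 l3 l4 : Fin 3, l1 = l2 ∨ l3 = l4 ∨ l1 = l3 ∨ l1 = l4 ∨ l2 = l3 ∨ l2 = l4 := by
      decide
    rcases this l1 l2 l3 l4 with rfl | rfl | rfl | rfl | rfl | rfl
    · rw [S.diag, zero_mul]
    · rw [S.diag, mul_zero]
    · exact S.sh11 _ _ _
    · exact S.sh12 _ _ _
    · exact S.sh21 _ _ _
    · exact S.sh22 _ _ _
  exact Ideal.mem_bot.1 (this (Ideal.mul_mem_mul h h'))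

theorem yl (l : Fin 3) (b : ι) (q) : S.y (l, b) q ∈ S.I1 b := Ideal.subset_span ⟨l, q, rfl⟩
theorem yr (l : Fin 3) (b : ι) (q) : S.y q (l, b) ∈ S.I1 b := by
  rw [S.anti]; exact neg_mem (S.yl _ _ _)

theorem cc_l (u v : ι) : S.cc u v ∈ S.I1 u :=
  add_mem (add_mem (S.yl _ _ _) (S.yl _ _ _)) (S.yl _ _ _)
theorem cc_r (u v : ι) : S.cc u v ∈ S.I1 v :=
  add_mem (add_mem (S.yr _ _ _) (S.yr _ _ _)) (S.yr _ _ _)

theorem gg_l (u v : ι) : S.gg u v ∈ S.I2 u :=
  add_mem (add_mem (S.I1_mul (S.yl _ _ _) (S.yl _ _ _)) (S.I1_mul (S.yl _ _ _) (S.yl _ _ _)))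
    (S.I1_mul (S.yl _ _ _) (S.yl _ _ _))
theorem gg_r (u v : ι) : S.gg u v ∈ S.I2 v :=
  add_mem (add_mem (S.I1_mul (S.yr _ _ _) (S.yr _ _ _)) (S.I1_mul (S.yr _ _ _) (S.yr _ _ _)))
    (S.I1_mul (S.yr _ _ _) (S.yr _ _ _))
theorem ss_l (u v : ι) : S.ss u v ∈ S.I2 u :=
  Ideal.mul_mem_right _ _ (S.I1_mul (S.yl _ _ _) (S.yl _ _ _))
theorem ss_r (u v : ι) : S.ss u v ∈ S.I2 v :=
  Ideal.mul_mem_right _ _ (S.I1_mul (S.yr _ _ _) (S.yr _ _ _))

theorem I2_le (b : ι) : S.I2 b ≤ S.I1 b := by
  unfold I2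
  rw [Ideal.span_le]
  rintro _ ⟨l, l', rfl⟩
  exact S.yl _ _ _

theorem ee_l (u v : ι) : S.ee u v ∈ S.I1 u :=
  add_mem (add_mem (S.cc_l u v) (S.I2_le _ (S.gg_l u v))) (S.I2_le _ (S.ss_l u v))
theorem ee_r (u v : ι) : S.ee u v ∈ S.I1 v :=
  add_mem (add_mem (S.cc_r u v) (S.I2_le _ (S.gg_r u v))) (S.I2_le _ (S.ss_r u v))

theorem mul_ee_l {z : C} {u : ι} (h : z ∈ S.I2 u) (v : ι) : z * S.ee u v = z * S.cc u v := by
  rw [ee, mul_add, mul_add, S.I2_mul h (S.gg_l u v), S.I2_mul h (S.ss_l u v), add_zero, add_zero]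
theorem mul_ee_r {z : C} {v : ι} (h : z ∈ S.I2 v) (u : ι) : z * S.ee u v = z * S.cc u v := by
  rw [ee, mul_add, mul_add, S.I2_mul h (S.gg_r u v), S.I2_mul h (S.ss_r u v), add_zero, add_zero]

theorem fin3 (j : Fin 3) : j = 0 ∨ j = 1 ∨ j = 2 := by revert j; decide

theorem ss_yl (u v : ι) (j : Fin 3) (q) : S.ss u v * S.y (j, u) q = 0 := by
  have h : S.x j u v * S.y (j, u) q = 0 := S.sh11 _ _ _
  unfold ss
  rcases fin3 j with rfl | rfl | rfl
  · linear_combination (S.x 1 u v * S.x 2 u v) * h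
  · linear_combination (S.x 0 u v * S.x 2 u v) * h
  · linear_combination (S.x 0 u v * S.x 1 u v) * h

theorem ss_yr (u v : ι) (j : Fin 3) (q) : S.ss u v * S.y (j, v) q = 0 := by
  have h : S.x j u v * S.y (j, v) q = 0 := S.sh21 _ _ _
  unfold ss
  rcases fin3 j with rfl | rfl | rfl
  · linear_combination (S.x 1 u v * S.x 2 u v) * h
  · linear_combination (S.x 0 u v * S.x 2 u v) * h
  · linear_combination (S.x 0 u v * S.x 1 u v) * h

theorem ss_I1l {u v : ι} {z : C} (h : z ∈ S.I1 u) : S.ss u v * z = 0 := by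
  induction h using Submodule.span_induction with
  | mem z hz => obtain ⟨l, q, rfl⟩ := hz; exact S.ss_yl _ _ _ _
  | zero => simp
  | add a b _ _ ha hb => rw [mul_add, ha, hb, add_zero]
  | smul a b _ hb => rw [smul_eq_mul, mul_left_comm, hb, mul_zero]

theorem ss_I1r {u v : ι} {z : C} (h : z ∈ S.I1 v) : S.ss u v * z = 0 := by
  induction h using Submodule.span_induction with
  | mem z hz => obtain ⟨l, q, rfl⟩ := hz; exact S.ss_yr _ _ _ _
  | zero => simp
  | add a b _ _ ha hb => rw [mul_add, ha, hb, add_zero]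
  | smul a b _ hb => rw [smul_eq_mul, mul_left_comm, hb, mul_zero]

theorem gg_y (u v : ι) (j l : Fin 3) :
    S.gg u v * S.y (j, u) (l, v) = if j = l then S.ss u v else 0 := by
  have h1 : S.x j u v * S.y (j, u) (l, v) = 0 := S.sh11 _ _ _
  have h2 : S.x l u v * S.y (j, u) (l, v) = 0 := S.sh22 _ _ _
  unfold gg ss
  rcases fin3 j with rfl | rfl | rfl <;> rcases fin3 l with rfl | rfl | rfl <;>
    simp only [x] at h1 h2 ⊢ <;> simp
  · linear_combination (S.y (1, u) (1, v) + S.y (2, u) (2, v)) * h1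
  · linear_combination (S.y (1, u) (1, v) + S.y (2, u) (2, v)) * h1 + S.y (2, u) (2, v) * h2
  · linear_combination (S.y (1, u) (1, v) + S.y (2, u) (2, v)) * h1 + S.y (1, u) (1, v) * h2
  · linear_combination (S.y (0, u) (0, v) + S.y (2, u) (2, v)) * h1 + S.y (2, u) (2, v) * h2
  · linear_combination (S.y (0, u) (0, v) + S.y (2, u) (2, v)) * h1
  · linear_combination (S.y (0, u) (0, v) + S.y (2, u) (2, v)) * h1 + S.y (0, u) (0, v) * h2
  · linear_combination (S.y (0, u) (0, v) + S.y (1, u) (1, v)) * h1 + S.y (1, u) (1, v) * h2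
  · linear_combination (S.y (0, u) (0, v) + S.y (1, u) (1, v)) * h1 + S.y (0, u) (0, v) * h2
  · linear_combination (S.y (0, u) (0, v) + S.y (1, u) (1, v)) * h1

theorem cc_sum (u v : ι) : S.cc u v = ∑ l : Fin 3, S.y (l, u) (l, v) := by
  simp [cc, x, Fin.sum_univ_three]

theorem xxc (a b : ι) (l i : Fin 3) (h : l ≠ i) :
    S.y (l, b) (l, a) * S.y (i, b) (i, a) * S.cc a b = S.ss a b := by
  have h0 : S.x 0 a b * S.x 0 a b = 0 := S.sh11 _ _ _
  have h1 : S.x 1 a b * S.x 1 a b = 0 := S.sh11 _ _ _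
  have h2 : S.x 2 a b * S.x 2 a b = 0 := S.sh11 _ _ _
  rw [S.anti (l, b), S.anti (i, b)]
  unfold cc ss
  fin_cases l <;> fin_cases i <;> simp only [x] at h0 h1 h2 ⊢ <;> simp at h ⊢
  · linear_combination S.y (1, a) (1, b) * h0 + S.y (0, a) (0, b) * h1
  · linear_combination S.y (2, a) (2, b) * h0 + S.y (0, a) (0, b) * h2
  · linear_combination S.y (1, a) (1, b) * h0 + S.y (0, a) (0, b) * h1
  · linear_combination S.y (2, a) (2, b) * h1 + S.y (1, a) (1, b) * h2
  · linear_combination S.y (2, a) (2, b) * h0 + S.y (0, a) (0, b) * h2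
  · linear_combination S.y (2, a) (2, b) * h1 + S.y (1, a) (1, b) * h2

theorem Wlem (a b : ι) (l m i j : Fin 3) :
    S.y (l, b) (m, a) * S.y (i, b) (j, a) * S.cc a b =
      S.ss a b * ((if l = m ∧ i = j then 1 else 0) - (if l = j ∧ m = i then 1 else 0)) := by
  have hc : ∀ l m i j : Fin 3, l = i ∨ m = j ∨ (l ≠ i ∧ l = m ∧ i = j) ∨ (l ≠ i ∧ l = j ∧ m = i) ∨
      ((¬(l = m ∧ i = j)) ∧ (¬(l = j ∧ m = i)) ∧ ∀ k : Fin 3, k = l ∨ k = i ∨ k = m ∨ k = j) := by
    decide
  rcases hc l m i j with rfl | rfl | ⟨h, rfl, rfl⟩ | ⟨h, rfl, rfl⟩ | ⟨h1, h2, h3⟩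
  · rw [S.sh11, zero_mul]
    by_cases h1 : l = m <;> by_cases h2 : l = j <;> simp [h1, h2, eq_comm]
  · rw [S.sh22, zero_mul]
    by_cases h1 : l = m <;> by_cases h2 : i = m <;> simp [h1, h2, eq_comm]
    all_goals simp_all [eq_comm]
  · rw [S.xxc a b l i h]
    simp [h]
  · have e : S.y (l, b) (m, a) * S.y (m, b) (l, a) = -(S.y (l, b) (l, a) * S.y (m, b) (m, a)) := by
      rw [S.pl (l, b) (m, a), S.pl (l, b) (l, a), S.anti (m, a) (l, a)]; ring
    rw [e, neg_mul, S.xxc a b l m h]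
    simp [h]
  · rw [if_neg h1, if_neg h2, sub_self, mul_zero, cc_sum, Finset.mul_sum]
    refine Finset.sum_eq_zero fun k _ => ?_
    rcases h3 k with rfl | rfl | rfl | rfl
    · rw [mul_right_comm, S.sh12, zero_mul]
    · rw [mul_assoc, S.sh12, mul_zero]
    · rw [mul_right_comm, S.sh21, zero_mul]
    · rw [mul_assoc, S.sh21, mul_zero]

/-- sandwich of a matrix between two vertices -/
def sand (M : Matrix (Fin 3) (Fin 3) C) (b a : ι) : C := ∑ i, ∑ j, M i j * S.y (i, b) (j, a)

theorem sand_l (M : Matrix (Fin 3) (Fin 3) C) (b a : ι) : S.sand M b a ∈ S.I1 b :=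
  Ideal.sum_mem _ fun _ _ => Ideal.sum_mem _ fun _ _ => Ideal.mul_mem_left _ _ (S.yl _ _ _)
theorem sand_r (M : Matrix (Fin 3) (Fin 3) C) (b a : ι) : S.sand M b a ∈ S.I1 a :=
  Ideal.sum_mem _ fun _ _ => Ideal.sum_mem _ fun _ _ => Ideal.mul_mem_left _ _ (S.yr _ _ _)

theorem sand_W (θ : Fin 3 → C) (σ : C) (a b : ι) (l m : Fin 3) :
    S.y (l, b) (m, a) * S.sand (σ • crossM θ) b a * S.cc a b = S.ss a b * σ * crossM θ l m := by
  have e : S.y (l, b) (m, a) * S.sand (σ • crossM θ) b a * S.cc a b =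
      ∑ i, ∑ j, σ * crossM θ i j * (S.y (l, b) (m, a) * S.y (i, b) (j, a) * S.cc a b) := by
    simp only [sand, Finset.mul_sum, Finset.sum_mul, Matrix.smul_apply, smul_eq_mul]
    exact Finset.sum_congr rfl fun i _ => Finset.sum_congr rfl fun j _ => by ring
  rw [e]
  simp only [Wlem, Fin.sum_univ_three]
  fin_cases l <;> fin_cases m <;> simp [crossM] <;> ring

def Weak (σ : C) (x : ι) : Prop :=
  ∀ b a : ι, ∃ r ∈ S.RR, r ∈ S.I1 b ∧ r ∈ S.I1 a ∧ ∃ e1 ∈ S.I2 b, ∃ e2 ∈ S.I2 a,
    r = S.sand (σ • S.Th x) b a + e1 + e2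

def Strong (σ : C) (x : ι) : Prop :=
  ∃ b a : ι, ∃ r ∈ S.RR, r ∈ S.I2 b ∧ r ∈ S.I2 a ∧
    ∀ l m, r * S.y (l, b) (m, a) = σ * S.Th x l m

theorem weak_one (x : ι) : S.Weak 1 x := by
  intro b a
  refine ⟨S.ee b x * S.ee x a, mul_mem (S.ee_mem _ _) (S.ee_mem _ _),
    Ideal.mul_mem_right _ _ (S.ee_l _ _), Ideal.mul_mem_left _ _ (S.ee_r _ _),
    (S.gg b x + S.ss b x) * S.ee x a,
    Ideal.mul_mem_right _ _ (add_mem (S.gg_l _ _) (S.ss_l _ _)),
    S.cc b x * (S.gg x a + S.ss x a),
    Ideal.mul_mem_left _ _ (add_mem (S.gg_r _ _) (S.ss_r _ _)), ?_⟩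
  have e : S.sand ((1 : C) • S.Th x) b a = S.cc b x * S.cc x a := by
    rw [cc_sum, cc_sum, Finset.sum_mul_sum, sand]
    refine Finset.sum_congr rfl fun i _ => Finset.sum_congr rfl fun j _ => ?_
    rw [one_smul, Th_apply, S.pl' (i, b), mul_comm]
  rw [e]
  unfold ee
  ring

theorem strong_of_weak {σ : C} {x : ι} (h : S.Weak σ x) (a b : ι) :
    S.Strong (S.ss a b * σ) x := by
  obtain ⟨r, hr, h1, h2, e1, he1, e2, he2, e⟩ := h b a
  refine ⟨b, a, S.ee a b * r, mul_mem (S.ee_mem _ _) hr, S.I1_mul (S.ee_r _ _) h1,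
    S.I1_mul (S.ee_l _ _) h2, fun l m => ?_⟩
  have a1 : S.y (l, b) (m, a) * S.ee a b * e1 = 0 :=
    S.I2_mul (S.I1_mul (S.yl _ _ _) (S.ee_r _ _)) he1
  have a2 : S.y (l, b) (m, a) * S.ee a b * e2 = 0 :=
    S.I2_mul (S.I1_mul (S.yr _ _ _) (S.ee_l _ _)) he2
  have a3 := S.mul_ee_l (S.I1_mul (S.yr m a (l, b)) (S.sand_r (σ • S.Th x) b a)) b
  have a4 := S.sand_W (S.th x) σ a b l m
  rw [e]
  unfold Th at *
  linear_combination a1 + a2 + a3 + a4

theorem strong_cc {σ : C} {x : ι} {b a : ι} {r : C}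
    (h : ∀ l m, r * S.y (l, b) (m, a) = σ * S.Th x l m) (b' a' : ι) :
    r * S.cc b' b * S.cc a a' = S.sand (σ • S.Th x) b' a' := by
  rw [cc_sum, cc_sum, mul_assoc, Finset.sum_mul_sum, Finset.mul_sum, sand]
  refine Finset.sum_congr rfl fun i _ => ?_
  rw [Finset.mul_sum]
  refine Finset.sum_congr rfl fun j _ => ?_
  rw [Matrix.smul_apply, smul_eq_mul, ← h, S.pl' (i, b')]
  ring

theorem strong_ee {σ : C} {x : ι} (h : S.Strong σ x) (b' a' : ι) :
    S.sand (σ • S.Th x) b' a' ∈ S.RR := by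
  obtain ⟨b, a, r, hr, h1, h2, h3⟩ := h
  rw [← S.strong_cc h3, ← S.mul_ee_r h1, ← S.mul_ee_l (Ideal.mul_mem_right _ _ h2)]
  exact mul_mem (mul_mem hr (S.ee_mem _ _)) (S.ee_mem _ _)

theorem weak_of_strong {σ : C} {x : ι} (h : S.Strong σ x) : S.Weak σ x := fun b' a' =>
  ⟨_, S.strong_ee h b' a', S.sand_l _ _ _, S.sand_r _ _ _, 0, zero_mem _, 0, zero_mem _, by simp⟩

/-- products of the top elements `ss` over a list of pairs -/
def sp (D : List (ι × ι)) : C := (D.map fun p => S.ss p.1 p.2).prod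

@[simp] theorem sp_cons (p : ι × ι) (D : List (ι × ι)) : S.sp (p :: D) = S.ss p.1 p.2 * S.sp D := by
  simp [sp]

theorem weak_sp (x : ι) : ∀ D : List (ι × ι), S.Weak (S.sp D) x
  | [] => S.weak_one x
  | p :: D => by
    rw [sp_cons]
    exact S.weak_of_strong (S.strong_of_weak (weak_sp x D) _ _)

theorem strong_sp (x : ι) (p : ι × ι) (D : List (ι × ι)) : S.Strong (S.sp (p :: D)) x := by
  rw [sp_cons]
  exact S.strong_of_weak (S.weak_sp x D) _ _

def lst : ι → List ι → ι
  | v, [] => v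
  | _, w :: q => lst w q

def EE : ι → List ι → C
  | _, [] => 1
  | v, w :: q => S.ee v w * EE w q

def NN : List ι → Matrix (Fin 3) (Fin 3) C
  | [] => 1
  | [v] => S.Th v
  | v :: v' :: rest => S.Th v * NN (v' :: rest) + S.ss v v' • NN rest

def SS : List ι → C
  | [] => 1
  | [_] => 0
  | v :: v' :: rest => S.ss v v' * SS rest

theorem lst_append (u : ι) : ∀ (q : List ι) (v : ι), lst v (q ++ [u]) = u
  | [], _ => rfl
  | w :: q, _ => lst_append u q w

theorem EE_append (u : ι) : ∀ (q : List ι) (v : ι),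
    S.EE v (q ++ [u]) = S.EE v q * S.ee (lst v q) u
  | [], v => by simp [EE, lst]
  | w :: q, v => by
    show S.ee v w * S.EE w (q ++ [u]) = S.ee v w * S.EE w q * S.ee (lst w q) u
    rw [EE_append u q w, mul_assoc]

theorem cc_y (v v' : ι) (j : Fin 3) (t) :
    S.cc v v' * S.y (j, v) t = ∑ l, S.Th v j l * S.y (l, v') t := by
  rw [cc_sum, Finset.sum_mul]
  refine Finset.sum_congr rfl fun l _ => ?_
  rw [Th_apply, S.pl (l, v), S.anti (l, v) (j, v)]
  ring

theorem EE_y : ∀ (q : List ι) (v : ι) (j i : Fin 3),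
    S.EE v q * S.y (j, v) (i, lst v q) = S.NN (v :: q) j i
  | [], v, j, i => by simp [EE, lst, NN, Th_apply]
  | [v'], v, j, i => by
    have h1 := S.cc_y v v' j (i, v')
    have h2 := S.gg_y v v' j i
    have h3 := S.ss_yl v v' j (i, v')
    simp only [EE, lst, NN, ee, Matrix.add_apply, Matrix.mul_apply, Matrix.smul_apply,
      Matrix.one_apply, smul_eq_mul, mul_one, add_mul, h1, h2, h3, Th_apply, add_zero, mul_ite,
      mul_zero]
  | v' :: v'' :: q, v, j, i => by
    have ih1 := EE_y (v'' :: q) v'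
    have ih2 := EE_y q v''
    have h1 := S.cc_y v v' j (i, lst v'' q)
    have h3 := S.ss_yl v v' j (i, lst v'' q)
    have h4 := S.mul_ee_l (S.gg_r v v') v''
    have h5 : S.gg v v' * S.cc v' v'' * S.y (j, v) (i, lst v'' q) =
        S.ss v v' * S.y (j, v'') (i, lst v'' q) := by
      rw [cc_sum, Finset.mul_sum, Finset.sum_mul]
      have : ∀ l : Fin 3, S.gg v v' * S.y (l, v') (l, v'') * S.y (j, v) (i, lst v'' q) =
          (if j = l then S.ss v v' else 0) * S.y (l, v'') (i, lst v'' q) := by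
        intro l
        rw [← gg_y, mul_assoc, S.pl (l, v'), S.anti (l, v') (j, v)]
        ring
      simp only [this, ite_mul, zero_mul, Finset.sum_ite_eq, Finset.mem_univ, if_true]
    have h6 : S.EE v' (v'' :: q) * (S.cc v v' * S.y (j, v) (i, lst v'' q)) =
        (S.Th v * S.NN (v' :: v'' :: q)) j i := by
      rw [h1, Finset.mul_sum, Matrix.mul_apply]
      refine Finset.sum_congr rfl fun l _ => ?_
      rw [← ih1 l i]
      simp only [lst]
      ring
    have h7 := ih2 j i
    show S.ee v v' * (S.ee v' v'' * S.EE v'' q) * S.y (j, v) (i, lst v'' q) =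
      (S.Th v * S.NN (v' :: v'' :: q) + S.ss v v' • S.NN (v'' :: q)) j i
    rw [Matrix.add_apply, Matrix.smul_apply, smul_eq_mul, ← h6, ← h7]
    have h8 : S.EE v' (v'' :: q) = S.ee v' v'' * S.EE v'' q := rfl
    rw [h8]
    have h9 : S.ee v v' = S.cc v v' + S.gg v v' + S.ss v v' := rfl
    rw [h9]
    linear_combination (S.ee v' v'' * S.EE v'' q) * h3 +
      (S.EE v'' q * S.y (j, v) (i, lst v'' q)) * h4 + S.EE v'' q * h5

theorem EE_mem : ∀ (q : List ι) (v : ι), S.EE v q ∈ S.RR
  | [], _ => one_mem _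
  | w :: q, _ => mul_mem (S.ee_mem _ _) (EE_mem q w)

theorem tr_Th (x : ι) : (S.Th x).trace = 0 := by
  simp [Th, crossM, Matrix.trace_fin_three]

theorem Bmem {σ : C} {x : ι} (h : S.Strong σ x) (p : List ι) :
    σ * (S.Th x * S.NN p).trace ∈ S.RR := by
  cases p with
  | nil => simp only [NN, Matrix.mul_one, tr_Th, mul_zero]; exact zero_mem _
  | cons v q =>
    have h1 := mul_mem (S.strong_ee h (lst v q) v) (S.EE_mem q v)
    have e : σ * (S.Th x * S.NN (v :: q)).trace = -(S.sand (σ • S.Th x) (lst v q) v * S.EE v q) := by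
      simp only [sand, Matrix.trace, Matrix.diag, Matrix.mul_apply, Finset.mul_sum, Finset.sum_mul,
        ← Finset.sum_neg_distrib, ← EE_y, Matrix.smul_apply, smul_eq_mul]
      refine Finset.sum_congr rfl fun i _ => Finset.sum_congr rfl fun j _ => ?_
      rw [S.anti (i, lst v q)]
      ring
    rw [e]
    exact neg_mem h1

theorem Amem : ∀ (p : List ι) (d : ι × ι) (D : List (ι × ι)),
    S.sp (d :: D) * (S.NN p).trace - 3 * S.sp (d :: D) * S.SS p ∈ S.RR
  | [], d, D => by
    have : S.sp (d :: D) * (S.NN []).trace - 3 * S.sp (d :: D) * S.SS [] = 0 := by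
      simp [NN, SS]; ring
    rw [this]; exact zero_mem _
  | [v], d, D => by
    have : S.sp (d :: D) * (S.NN [v]).trace - 3 * S.sp (d :: D) * S.SS [v] = 0 := by
      simp [NN, SS, tr_Th]
    rw [this]; exact zero_mem _
  | v :: v' :: rest, d, D => by
    have h1 := S.Bmem (S.strong_sp v d D) (v' :: rest)
    have h2 := Amem rest (v, v') (d :: D)
    have := add_mem h1 h2
    refine (congrArg (· ∈ S.RR) ?_).mp this
    simp only [NN, SS, trace_add, trace_smul, smul_eq_mul, sp_cons (p := (v, v'))]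
    ring

theorem Th_NN (y : ι) (p : List ι) : ∃ (σ : C) (p' : List ι),
    S.Th y * S.NN p = S.NN (y :: p) - σ • S.NN p' ∧ (σ = 0 ∨ ∃ a b, σ = S.ss a b) := by
  cases p with
  | nil => exact ⟨0, [], by simp [NN], Or.inl rfl⟩
  | cons v rest => exact ⟨S.ss y v, rest, by simp [NN], Or.inr ⟨_, _, rfl⟩⟩

theorem Cmem (x : ι) (q : List ι) : ∀ (p : List ι) (d : ι × ι) (D : List (ι × ι)),
    S.sp (d :: D) * (S.Th x * prodM S.th q * S.NN p).trace ∈ S.RR := by
  induction q using List.reverseRecOn with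
  | nil => intro p d D; simpa using S.Bmem (S.strong_sp x d D) p
  | append_singleton q y ih =>
    intro p d D
    obtain ⟨σ, p', e, hσ⟩ := S.Th_NN y p
    have e' : S.Th x * prodM S.th (q ++ [y]) * S.NN p =
        S.Th x * prodM S.th q * S.NN (y :: p) - σ • (S.Th x * prodM S.th q * S.NN p') := by
      rw [prodM_append, prodM_cons, prodM_nil, Matrix.mul_one, ← Matrix.mul_assoc,
        Matrix.mul_assoc _ (crossM _)]
      erw [e]
      rw [Matrix.mul_sub, Matrix.mul_smul]
    rw [e', trace_sub, trace_smul, smul_eq_mul, mul_sub]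
    refine sub_mem (ih _ _ _) ?_
    rcases hσ with rfl | ⟨a, b, rfl⟩
    · simp
    · have := ih p' (a, b) (d :: D)
      refine (congrArg (· ∈ S.RR) ?_).mp this
      rw [sp_cons (p := (a, b))]
      ring

theorem Dmem (x : ι) (q : List ι) : ∀ p : List ι,
    (S.Th x * prodM S.th q * S.NN p).trace - (S.Th x * S.NN (q ++ p)).trace ∈ S.RR := by
  induction q using List.reverseRecOn with
  | nil => intro p; simp
  | append_singleton q y ih =>
    intro p
    obtain ⟨σ, p', e, hσ⟩ := S.Th_NN y p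
    have e' : S.Th x * prodM S.th (q ++ [y]) * S.NN p =
        S.Th x * prodM S.th q * S.NN (y :: p) - σ • (S.Th x * prodM S.th q * S.NN p') := by
      rw [prodM_append, prodM_cons, prodM_nil, Matrix.mul_one, ← Matrix.mul_assoc,
        Matrix.mul_assoc _ (crossM _)]
      erw [e]
      rw [Matrix.mul_sub, Matrix.mul_smul]
    rw [e', trace_sub, trace_smul, smul_eq_mul, List.append_assoc, List.singleton_append,
      sub_right_comm]
    refine sub_mem (ih _) ?_
    rcases hσ with rfl | ⟨a, b, rfl⟩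
    · simp
    · simpa [sp] using S.Cmem x q p' (a, b) []

theorem ss_anti (a b : ι) : S.ss a b = -S.ss b a := by
  simp only [ss, x]
  rw [S.anti (0, a), S.anti (1, a), S.anti (2, a)]
  ring

theorem ss_pl (a b c d : ι) : S.ss a b * S.ss c d = -(S.ss a c * S.ss b d) := by
  have h0 := S.pl (0, a) (0, b) (0, c) (0, d)
  have h1 := S.pl (1, a) (1, b) (1, c) (1, d)
  have h2 := S.pl (2, a) (2, b) (2, c) (2, d)
  simp only [ss, x]
  calc _ = (S.y (0, a) (0, b) * S.y (0, c) (0, d)) * (S.y (1, a) (1, b) * S.y (1, c) (1, d)) *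
        (S.y (2, a) (2, b) * S.y (2, c) (2, d)) := by ring
    _ = _ := by rw [h0, h1, h2]; ring

theorem SS_rot (x u : ι) : ∀ (q : List ι) (v : ι),
    S.ss x v * S.SS (q ++ [u]) + S.ss u x * S.SS (v :: q) = 0
  | [], v => by simp [SS]
  | [w], v => by
    simp only [List.cons_append, List.nil_append, SS, mul_one]
    have h := S.ss_pl x u v w
    rw [S.ss_anti u x, S.ss_anti w u]
    linear_combination (-1 : C) * h
  | w :: w' :: q, v => by
    have ih := SS_rot x u q w'
    have h : S.ss x v * S.ss w w' = S.ss v w * S.ss x w' := by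
      rw [mul_comm (S.ss v w), S.ss_pl x w' v w, S.ss_anti w' w]; ring
    simp only [List.cons_append, SS]
    linear_combination S.ss v w * ih + S.SS (q ++ [u]) * h

theorem cyc_mem (x v u : ι) (q : List ι) : (S.Th x * S.NN (v :: (q ++ [u]))).trace ∈ S.RR := by
  have h0 : S.EE x (v :: (q ++ [u])) * S.ee u x ∈ S.RR := mul_mem (S.EE_mem _ _) (S.ee_mem _ _)
  have hc : S.EE x (v :: (q ++ [u])) * S.cc u x = -(S.NN (x :: v :: (q ++ [u]))).trace := by
    rw [cc_sum, Finset.mul_sum, Matrix.trace, ← Finset.sum_neg_distrib]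
    refine Finset.sum_congr rfl fun i _ => ?_
    rw [Matrix.diag, ← EE_y, S.anti (i, u)]
    have : lst x (v :: (q ++ [u])) = u := lst_append u q v
    rw [this]
    ring
  have hE : S.EE x (v :: (q ++ [u])) = S.ee x v * (S.EE v q * S.ee (lst v q) u) := by
    rw [← EE_append]; rfl
  have hs : S.ss u x * S.ee x v = 0 := S.ss_I1r (S.ee_l _ _)
  have hg1 := S.mul_ee_l (S.gg_r u x) v
  have hg2 := S.mul_ee_r (S.gg_l u x) (lst v q)
  have hg3 : S.EE v q * (S.gg u x * S.cc x v * S.cc (lst v q) u) =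
      -(S.ss u x * (S.NN (v :: q)).trace) := by
    rw [cc_sum, cc_sum, mul_assoc, Finset.sum_mul_sum, Finset.mul_sum, Finset.mul_sum, Matrix.trace,
      Finset.mul_sum, ← Finset.sum_neg_distrib]
    refine Finset.sum_congr rfl fun l _ => ?_
    have : ∀ i : Fin 3, S.gg u x * (S.y (l, x) (l, v) * S.y (i, lst v q) (i, u)) =
        -((if i = l then S.ss u x else 0) * S.y (l, v) (i, lst v q)) := by
      intro i
      rw [← gg_y, S.pl' (l, x), S.anti (l, x) (i, u)]
      ring
    rw [Finset.mul_sum]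
    simp only [this, ite_mul, zero_mul, Finset.sum_neg_distrib, Finset.sum_ite_eq',
      Finset.mem_univ, if_true]
    rw [Matrix.diag, ← EE_y]
    ring
  have e : S.EE x (v :: (q ++ [u])) * S.ee u x =
      -(S.NN (x :: v :: (q ++ [u]))).trace - S.ss u x * (S.NN (v :: q)).trace := by
    have h9 : S.ee u x = S.cc u x + S.gg u x + S.ss u x := rfl
    rw [h9, mul_add, mul_add, hc, hE]
    linear_combination (S.EE v q * S.ee (lst v q) u) * hs + (S.EE v q * S.ee (lst v q) u) * hg1 +
      (S.EE v q * S.cc x v) * hg2 + hg3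
  have a1 := S.Amem (q ++ [u]) (x, v) []
  have a2 := S.Amem (v :: q) (u, x) []
  have := neg_mem (add_mem (add_mem h0 a1) a2)
  refine (congrArg (· ∈ S.RR) ?_).mp this
  rw [e]
  simp only [NN, trace_add, trace_smul, smul_eq_mul, sp, List.map_cons, List.map_nil,
    List.prod_cons, List.prod_nil, mul_one]
  linear_combination 3 * S.SS_rot x u q v

theorem Tr_mem_RR (w : List ι) (hw : 3 ≤ w.length) : Tr w S.th ∈ S.RR := by
  obtain ⟨x, v, q', rfl⟩ : ∃ x v q', w = x :: v :: q' := by
    match w, hw with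
    | x :: v :: q', _ => exact ⟨x, v, q', rfl⟩
  obtain ⟨q, u, rfl⟩ : ∃ q u, q' = q ++ [u] := by
    rcases List.eq_nil_or_concat q' with h0 | ⟨p', x, h0⟩
    · subst h0; simp at hw
    · exact ⟨p', x, by simpa using h0⟩
  have h1 := S.Dmem x (v :: (q ++ [u])) []
  have h2 := S.cyc_mem x v u q
  have := add_mem h1 (by simpa using h2 : (S.Th x * S.NN (v :: (q ++ [u]) ++ [])).trace ∈ S.RR)
  simpa [NN, Tr, Th] using this

theorem dot_th (u v : ι) : dot (S.th u) (S.th v) = -S.gg u v := by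
  simp only [dot, th, gg, x, Matrix.cons_val_zero, Matrix.cons_val_one, Matrix.cons_val]
  rw [S.pl (2, u) (1, u), S.pl (0, u) (2, u), S.pl (1, u) (0, u)]
  ring

theorem two_Mt_mem [DecidableEq ι] (k : ℕ) (L : List ι) (hL : L.length = 2 * k + 6)
    (hn : L.Nodup) : Mt L S.th + Mt L S.th ∈ S.RR := by
  have key : ∀ y ∈ HH C L, y S.th ∈ S.RR := by
    intro y hy
    induction hy using AddSubgroup.closure_induction with
    | mem y hy =>
      obtain ⟨w, hw, rfl⟩ := hy
      exact S.Tr_mem_RR w (by rw [hw.length_eq]; omega)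
    | zero => exact zero_mem _
    | add y y' _ _ h h' => exact add_mem h h'
    | neg y _ h => exact neg_mem h
  exact key _ (two_Mt k L hL hn)

end YS

end Pool.Agent.MP_8fd8e7_al

end

-- part MP_8fd8e7_al.Bar
section

/-! The commutative ring of characteristic two on square-zero generators in three colours, the
colour swap, the partial derivatives, and the functional that reads off the Brauer image. -/

namespace Pool.Agent.MP_8fd8e7_al

open MvPolynomial

abbrev VV : Type := ℕ →₀ ℤ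
abbrev PP : Type := MvPolynomial (Fin 3 × ℕ) (ZMod 2)
noncomputable def Isq : Ideal PP := Ideal.span (Set.range fun s : Fin 3 × ℕ => (X s : PP) ^ 2)
abbrev BB : Type := PP ⧸ Isq

noncomputable def mkB : PP →ₐ[ZMod 2] BB := Ideal.Quotient.mkₐ (ZMod 2) Isq
theorem mkB_surj : Function.Surjective mkB := Ideal.Quotient.mkₐ_surjective _ _
theorem mkB_eq_zero {p : PP} : mkB p = 0 ↔ p ∈ Isq := Ideal.Quotient.eq_zero_iff_mem

noncomputable def XB (s : Fin 3 × ℕ) : BB := mkB (X s)

theorem twoB : (2 : BB) = 0 := by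
  have h : (2 : ZMod 2) = 0 := rfl
  have := congrArg (algebraMap (ZMod 2) BB) h
  rwa [map_ofNat, map_zero] at this

theorem add_selfB (z : BB) : z + z = 0 := by rw [← two_mul, twoB, zero_mul]

theorem negB (z : BB) : -z = z := by
  rw [neg_eq_iff_add_eq_zero, add_selfB]

theorem XB_sq (s : Fin 3 × ℕ) : XB s * XB s = 0 := by
  rw [XB, ← map_mul, ← sq, mkB_eq_zero]
  exact Ideal.subset_span ⟨s, rfl⟩

theorem BB_ind {P : BB → Prop} (h0 : P 0) (h1 : P 1) (ha : ∀ a b, P a → P b → P (a + b))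
    (hm : ∀ a s, P a → P (a * XB s)) (z : BB) : P z := by
  obtain ⟨p, rfl⟩ := mkB_surj z
  induction p using MvPolynomial.induction_on with
  | C a =>
    have : ∀ a : ZMod 2, a = 0 ∨ a = 1 := by decide
    rcases this a with rfl | rfl
    · simpa using h0
    · simpa using h1
  | add p q hp hq => rw [map_add]; exact ha _ _ hp hq
  | mul_X p s hp => rw [map_mul]; exact hm _ _ hp

theorem pd_mem (s : Fin 3 × ℕ) (p : PP) (h : mkB p = 0) : mkB (pderiv s p) = 0 := by
  rw [mkB_eq_zero] at h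
  induction h using Submodule.span_induction with
  | mem z hz =>
    obtain ⟨t, rfl⟩ := hz
    simp only [pderiv_pow, map_mul, map_natCast]
    have : ((2 : ℕ) : BB) = 0 := by exact_mod_cast twoB
    rw [this, zero_mul, zero_mul]
  | zero => simp
  | add a b _ _ ha hb => rw [map_add, map_add, ha, hb, add_zero]
  | smul a b hb' hb =>
    rw [smul_eq_mul, pderiv_mul, map_add, map_mul, map_mul, hb, mkB_eq_zero.2 hb', mul_zero,
      mul_zero, add_zero]

noncomputable def dB (s : Fin 3 × ℕ) : Derivation (ZMod 2) BB BB :=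
  Derivation.liftOfSurjective mkB_surj (d := pderiv s) (pd_mem s)

theorem dB_mul (s : Fin 3 × ℕ) (a b : BB) : dB s (a * b) = dB s a * b + a * dB s b := by
  rw [Derivation.leibniz, smul_eq_mul, smul_eq_mul]; ring

theorem dB_X (s t : Fin 3 × ℕ) : dB s (XB t) = if t = s then 1 else 0 := by
  rw [dB, XB, Derivation.liftOfSurjective_apply, pderiv_X, Pi.single_apply]
  split_ifs <;> simp

theorem dB_comm (s t : Fin 3 × ℕ) (z : BB) : dB s (dB t z) = dB t (dB s z) := by
  induction z using BB_ind with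
  | h0 => simp
  | h1 => simp
  | ha a b ha hb => simp [ha, hb]
  | hm a u ha =>
    simp only [dB_mul, map_add, dB_X, ha]
    split_ifs <;> simp
    ring

def tau (s : Fin 3 × ℕ) : Fin 3 × ℕ := (Equiv.swap 0 1 s.1, s.2)

theorem tau_tau (s : Fin 3 × ℕ) : tau (tau s) = s := by simp [tau]

noncomputable def sg : BB →ₐ[ZMod 2] BB :=
  Ideal.Quotient.liftₐ Isq (aeval fun s => XB (tau s)) (by
    intro a ha
    induction ha using Submodule.span_induction with
    | mem z hz => obtain ⟨t, rfl⟩ := hz; simp [sq, XB_sq]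
    | zero => simp
    | add a b _ _ ha hb => rw [map_add, ha, hb, add_zero]
    | smul a b _ hb => rw [smul_eq_mul, map_mul, hb, mul_zero])

theorem sg_X (s : Fin 3 × ℕ) : sg (XB s) = XB (tau s) := by
  show (aeval fun s => XB (tau s)) (X s : PP) = _
  simp

noncomputable def ep : BB →ₐ[ZMod 2] ZMod 2 :=
  Ideal.Quotient.liftₐ Isq (aeval fun _ => 0) (by
    intro a ha
    induction ha using Submodule.span_induction with
    | mem z hz => obtain ⟨t, rfl⟩ := hz; simp
    | zero => simp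
    | add a b _ _ ha hb => rw [map_add, ha, hb, add_zero]
    | smul a b _ hb => rw [smul_eq_mul, map_mul, hb, mul_zero])

theorem ep_X (s : Fin 3 × ℕ) : ep (XB s) = 0 := by
  simp [ep, XB, mkB]

theorem sg_sg (z : BB) : sg (sg z) = z := by
  induction z using BB_ind with
  | h0 => simp
  | h1 => simp
  | ha a b ha hb => simp [ha, hb]
  | hm a u ha => simp [ha, sg_X, tau_tau]

theorem ep_sg (z : BB) : ep (sg z) = ep z := by
  induction z using BB_ind with
  | h0 => simp
  | h1 => simp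
  | ha a b ha hb => simp [ha, hb]
  | hm a u ha => simp [sg_X, ep_X]

theorem sg_dB (s : Fin 3 × ℕ) (z : BB) : sg (dB s z) = dB (tau s) (sg z) := by
  induction z using BB_ind with
  | h0 => simp
  | h1 => simp
  | ha a b ha hb => simp [ha, hb]
  | hm a u ha =>
    simp only [dB_mul, map_add, map_mul, dB_X, ha, sg_X]
    have : tau u = tau s ↔ u = s :=
      ⟨fun h => by rw [← tau_tau u, h, tau_tau], fun h => by rw [h]⟩
    simp only [this]
    split_ifs <;> simp

/-- the generator of colour `i` attached to a vector -/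
noncomputable def Xv (i : Fin 3) : VV →ₗ[ℤ] BB := Finsupp.linearCombination ℤ fun a => XB (i, a)

theorem Xv_single (i : Fin 3) (a : ℕ) (n : ℤ) : Xv i (Finsupp.single a n) = n • XB (i, a) := by
  simp [Xv]

theorem sq_add {a b : BB} (ha : a * a = 0) (hb : b * b = 0) : (a + b) * (a + b) = 0 := by
  linear_combination ha + hb + (a * b) * twoB

theorem Xv_sq (i : Fin 3) (v : VV) : Xv i v * Xv i v = 0 := by
  induction v using Finsupp.induction_linear with
  | zero => simp
  | add a b ha hb => rw [map_add]; exact sq_add ha hb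
  | single a n => rw [Xv_single, smul_mul_smul_comm, XB_sq, smul_zero]

theorem sg_Xv (i : Fin 3) (v : VV) : sg (Xv i v) = Xv (Equiv.swap 0 1 i) v := by
  induction v using Finsupp.induction_linear with
  | zero => simp
  | add a b ha hb => simp [ha, hb]
  | single a n => rw [Xv_single, Xv_single, map_zsmul, sg_X]; rfl

theorem sg_X0 (v : VV) : sg (Xv 0 v) = Xv 1 v := by rw [sg_Xv]; rfl
theorem sg_X1 (v : VV) : sg (Xv 1 v) = Xv 0 v := by rw [sg_Xv]; rfl
theorem sg_X2 (v : VV) : sg (Xv 2 v) = Xv 2 v := by rw [sg_Xv]; rfl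

theorem ep_Xv (i : Fin 3) (v : VV) : ep (Xv i v) = 0 := by
  induction v using Finsupp.induction_linear with
  | zero => simp
  | add a b ha hb => simp [ha, hb]
  | single a n => rw [Xv_single, map_zsmul, ep_X, smul_zero]

theorem dB_Xv (j : Fin 3) (a : ℕ) (i : Fin 3) (v : VV) :
    dB (j, a) (Xv i v) = if i = j then ((v a : ℤ) : BB) else 0 := by
  induction v using Finsupp.induction_linear with
  | zero => simp
  | add u v hu hv => rw [map_add, map_add, hu, hv]; split_ifs <;> simp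
  | single b n =>
    rw [Xv_single, map_zsmul, dB_X, Finsupp.single_apply]
    by_cases h1 : i = j <;> by_cases h2 : b = a <;> simp [h1, h2]

theorem dB_int (s : Fin 3 × ℕ) (n : ℤ) : dB s (n : BB) = 0 := by simp

theorem int_sq (n : ℤ) : (n : BB) * (n : BB) = n := by
  rcases Int.even_or_odd' n with ⟨k, rfl | rfl⟩
  · push_cast; rw [twoB]; simp
  · push_cast; rw [twoB]; simp

noncomputable def DD (a : ℕ) (z : BB) : BB := dB (0, a) (dB (1, a) z) + dB (2, a) z

theorem DD_add (a : ℕ) (z z' : BB) : DD a (z + z') = DD a z + DD a z' := by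
  simp only [DD, map_add]; ring

theorem DD_zero (a : ℕ) : DD a 0 = 0 := by simp [DD]

theorem sg_d0 (a : ℕ) (z : BB) : sg (dB (0, a) z) = dB (1, a) (sg z) := sg_dB _ _
theorem sg_d1 (a : ℕ) (z : BB) : sg (dB (1, a) z) = dB (0, a) (sg z) := sg_dB _ _
theorem sg_d2 (a : ℕ) (z : BB) : sg (dB (2, a) z) = dB (2, a) (sg z) := sg_dB _ _

theorem sg_DD (a : ℕ) (z : BB) : sg (DD a z) = DD a (sg z) := by
  rw [DD, map_add, sg_d0, sg_d1, sg_d2, dB_comm, DD]

noncomputable def kap (v : VV) : BB := Xv 0 v * Xv 1 v + Xv 2 v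

theorem sg_kap (v : VV) : sg (kap v) = kap v := by
  simp only [kap, map_add, map_mul, sg_X0, sg_X1, sg_X2]; ring

theorem DD_kap (a : ℕ) (v : VV) : DD a (kap v) = 0 := by
  have h := int_sq (v a)
  simp only [DD, kap, map_add, dB_mul, dB_Xv]
  simp
  rw [h, add_selfB]

noncomputable def KK : AddSubgroup BB :=
  AddSubgroup.closure ({z | ∃ y, z = y + sg y} ∪ {z | ∃ w v, sg w = w ∧ z = w * kap v})

theorem norm_mem (y : BB) : y + sg y ∈ KK := AddSubgroup.subset_closure (Or.inl ⟨y, rfl⟩)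
theorem kap_mem {w : BB} (h : sg w = w) (v : VV) : w * kap v ∈ KK :=
  AddSubgroup.subset_closure (Or.inr ⟨w, v, h, rfl⟩)

theorem KK_inv {z : BB} (h : z ∈ KK) : sg z = z := by
  induction h using AddSubgroup.closure_induction with
  | mem z hz =>
    rcases hz with ⟨y, rfl⟩ | ⟨w, v, hw, rfl⟩
    · rw [map_add, sg_sg, add_comm]
    · rw [map_mul, hw, sg_kap]
  | zero => simp
  | add a b _ _ ha hb => rw [map_add, ha, hb]
  | neg a _ ha => rw [map_neg, ha]

theorem KK_mul {w z : BB} (hw : sg w = w) (h : z ∈ KK) : w * z ∈ KK := by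
  induction h using AddSubgroup.closure_induction with
  | mem z hz =>
    rcases hz with ⟨y, rfl⟩ | ⟨w', v, hw', rfl⟩
    · have := norm_mem (w * y)
      rwa [map_mul, hw, ← mul_add] at this
    · rw [← mul_assoc]
      exact kap_mem (by rw [map_mul, hw, hw']) v
  | zero => simp
  | add a b _ _ ha hb => rw [mul_add]; exact add_mem ha hb
  | neg a _ ha => rw [negB]; exact ha

theorem KK_DD (a : ℕ) {z : BB} (h : z ∈ KK) : DD a z ∈ KK := by
  induction h using AddSubgroup.closure_induction with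
  | mem z hz =>
    rcases hz with ⟨y, rfl⟩ | ⟨w, v, hw, rfl⟩
    · rw [DD_add, ← sg_DD]; exact norm_mem _
    · have e : DD a (w * kap v) = DD a w * kap v + w * DD a (kap v) +
          (dB (0, a) w * dB (1, a) (kap v) + sg (dB (0, a) w * dB (1, a) (kap v))) := by
        rw [map_mul, sg_d0, sg_d1, hw, sg_kap]
        simp only [DD, dB_mul, map_add]
        ring
      rw [e, DD_kap, mul_zero, add_zero]
      exact add_mem (kap_mem (by rw [sg_DD, hw]) v) (norm_mem _)
  | zero => rw [DD_zero]; exact zero_mem _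
  | add a b _ _ ha hb => rw [DD_add]; exact add_mem ha hb
  | neg a _ ha => rw [negB]; exact ha

theorem KK_ep {z : BB} (h : z ∈ KK) : ep z = 0 := by
  induction h using AddSubgroup.closure_induction with
  | mem z hz =>
    rcases hz with ⟨y, rfl⟩ | ⟨w, v, hw, rfl⟩
    · rw [map_add, ep_sg]
      exact CharTwo.add_self_eq_zero _
    · simp [kap, ep_Xv]
  | zero => simp
  | add a b _ _ ha hb => rw [map_add, ha, hb, add_zero]
  | neg a _ ha => rw [map_neg, ha, neg_zero]

noncomputable def lam : List ℕ → BB → ZMod 2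
  | [], z => ep z
  | a :: l, z => lam l (DD a z)

theorem lam_add : ∀ (l : List ℕ) (z z' : BB), lam l (z + z') = lam l z + lam l z'
  | [], z, z' => by simp [lam]
  | a :: l, z, z' => by simp only [lam, DD_add, lam_add l]

theorem lam_zero : ∀ l : List ℕ, lam l 0 = 0
  | [] => by simp [lam]
  | a :: l => by simp only [lam, DD_zero, lam_zero l]

theorem lam_KK : ∀ (l : List ℕ) {z : BB}, z ∈ KK → lam l z = 0
  | [], _, h => KK_ep h
  | a :: l, _, h => lam_KK l (KK_DD a h)

noncomputable def ZZ (vs : List VV) : BB := (vs.map (Xv 2)).prod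

theorem ZZ_nil : ZZ [] = 1 := rfl
theorem ZZ_cons (v : VV) (vs : List VV) : ZZ (v :: vs) = Xv 2 v * ZZ vs := by simp [ZZ]

theorem sg_ZZ : ∀ vs : List VV, sg (ZZ vs) = ZZ vs
  | [] => by simp [ZZ_nil]
  | v :: vs => by rw [ZZ_cons, map_mul, sg_X2, sg_ZZ vs]

theorem d1_ZZ (a : ℕ) : ∀ vs : List VV, dB (1, a) (ZZ vs) = 0
  | [] => by simp [ZZ_nil]
  | v :: vs => by rw [ZZ_cons, dB_mul, d1_ZZ a vs, dB_Xv]; simp

theorem DD_ZZ (a : ℕ) (vs : List VV) : DD a (ZZ vs) = dB (2, a) (ZZ vs) := by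
  rw [DD, d1_ZZ]; simp

noncomputable def FF (m : ℕ) : AddSubgroup BB :=
  AddSubgroup.closure {z | ∃ vs : List VV, vs.length < m ∧ z = ZZ vs}

theorem FF_mul (v : VV) {m : ℕ} {z : BB} (h : z ∈ FF m) : Xv 2 v * z ∈ FF (m + 1) := by
  induction h using AddSubgroup.closure_induction with
  | mem z hz =>
    obtain ⟨vs, h1, rfl⟩ := hz
    exact AddSubgroup.subset_closure ⟨v :: vs, by simpa using h1, (ZZ_cons _ _).symm⟩
  | zero => simp
  | add a b _ _ ha hb => rw [mul_add]; exact add_mem ha hb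
  | neg a _ ha => rw [negB]; exact ha

theorem d2_ZZ (a : ℕ) : ∀ (vs : List VV) (m : ℕ), vs.length ≤ m → dB (2, a) (ZZ vs) ∈ FF m
  | [], m, _ => by simp [ZZ_nil]
  | v :: vs, 0, h => by simp at h
  | v :: vs, m + 1, h => by
    have h' : vs.length ≤ m := by simpa using h
    rw [ZZ_cons, dB_mul, dB_Xv, if_pos rfl, ← zsmul_eq_mul]
    have h0 : ZZ vs ∈ FF (m + 1) := AddSubgroup.subset_closure ⟨vs, by omega, rfl⟩
    exact add_mem (zsmul_mem h0 _) (FF_mul v (d2_ZZ a vs m h'))

theorem FF_DD (a : ℕ) {m : ℕ} {z : BB} (h : z ∈ FF (m + 1)) : DD a z ∈ FF m := by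
  induction h using AddSubgroup.closure_induction with
  | mem z hz =>
    obtain ⟨vs, h1, rfl⟩ := hz
    rw [DD_ZZ]
    exact d2_ZZ a vs m (by omega)
  | zero => rw [DD_zero]; exact zero_mem _
  | add a b _ _ ha hb => rw [DD_add]; exact add_mem ha hb
  | neg a _ ha => rw [negB]; exact ha

theorem lam_FF : ∀ (l : List ℕ) {z : BB}, z ∈ FF l.length → lam l z = 0
  | [], z, h => by
    have : z = 0 := by
      induction h using AddSubgroup.closure_induction with
      | mem z hz => obtain ⟨vs, h1, _⟩ := hz; simp at h1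
      | zero => rfl
      | add a b _ _ ha hb => rw [ha, hb, add_zero]
      | neg a _ ha => rw [ha, neg_zero]
    rw [this, lam_zero]
  | a :: l, _, h => lam_FF l (FF_DD a h)

theorem lam_ZZ_lt (l : List ℕ) (vs : List VV) (h : vs.length < l.length) : lam l (ZZ vs) = 0 :=
  lam_FF l (AddSubgroup.subset_closure ⟨vs, h, rfl⟩)

noncomputable def ev (a : ℕ) : VV := Finsupp.single a 1

theorem d2_ZZ_ev (a : ℕ) : ∀ l : List ℕ, a ∉ l → dB (2, a) (ZZ (l.map ev)) = 0
  | [], _ => by simp [ZZ_nil]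
  | b :: l, h => by
    simp only [List.mem_cons, not_or] at h
    rw [List.map_cons, ZZ_cons, dB_mul, d2_ZZ_ev a l h.2, dB_Xv, ev,
      Finsupp.single_eq_of_ne h.1]
    simp

theorem lam_ZZ_self : ∀ l : List ℕ, l.Nodup → lam l (ZZ (l.map ev)) = 1
  | [], _ => by simp [lam, ZZ_nil]
  | a :: l, h => by
    rw [List.nodup_cons] at h
    rw [lam, DD_ZZ, List.map_cons, ZZ_cons, dB_mul, d2_ZZ_ev a l h.1, dB_Xv, ev]
    simpa using lam_ZZ_self l h.2

theorem xx_mem (u v : VV) :
    (Xv 0 u * Xv 0 v) * (Xv 1 u * Xv 1 v) + Xv 2 u * Xv 2 v ∈ KK := by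
  have h1 := kap_mem (w := Xv 0 v * Xv 1 v) (by rw [map_mul, sg_X0, sg_X1, mul_comm]) u
  have h2 := kap_mem (sg_X2 u) v
  have := add_mem h1 h2
  refine (congrArg (· ∈ KK) ?_).mp this
  unfold kap
  linear_combination (Xv 0 v * Xv 1 v * Xv 2 u) * twoB

theorem gg_mem (u v : VV) :
    (Xv 0 u * Xv 0 v) * (Xv 1 u * Xv 1 v) + (Xv 0 u * Xv 0 v) * (Xv 2 u * Xv 2 v) +
      (Xv 1 u * Xv 1 v) * (Xv 2 u * Xv 2 v) + Xv 2 u * Xv 2 v ∈ KK := by
  have := add_mem (xx_mem u v) (norm_mem ((Xv 0 u * Xv 0 v) * (Xv 2 u * Xv 2 v)))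
  refine (congrArg (· ∈ KK) ?_).mp this
  simp only [map_mul, sg_X0, sg_X2]
  ring

theorem bb_mem (u v : VV) :
    (1 + Xv 0 u * Xv 0 v) * (1 + Xv 1 u * Xv 1 v) * (1 + Xv 2 u * Xv 2 v) - 1 ∈ KK := by
  have h3 := kap_mem (w := Xv 0 v * Xv 1 v * Xv 2 u * Xv 2 v)
    (by simp only [map_mul, sg_X0, sg_X1, sg_X2]; ring) u
  have := add_mem (add_mem (gg_mem u v) (norm_mem (Xv 0 u * Xv 0 v))) h3
  refine (congrArg (· ∈ KK) ?_).mp this
  simp only [map_mul, sg_X0, kap]
  linear_combination (Xv 0 v * Xv 1 v * Xv 2 v) * Xv_sq 2 u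

end Pool.Agent.MP_8fd8e7_al

end
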