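import Pool.Agent.MP_8fd8e7_al.Defs
import Pool.Agent.MP_8fd8e7_al.Mg.Bar

-- part MP_8fd8e7_al.Grp
section

/-! The abelian-by-(class two) groups attached to a bicharacter, and words acting as ring
elements. -/

namespace Pool.Agent.MP_8fd8e7_al

variable {V : Type} [AddCommGroup V] {Q : Type} [CommRing Q]

def al (α : V →ₗ[ℤ] V →ₗ[ℤ] Additive Qˣ) (u v : V) : Qˣ := Additive.toMul (α u v)

variable {α : V →ₗ[ℤ] V →ₗ[ℤ] Additive Qˣ}

theorem al_add_l (u u' v : V) : al α (u + u') v = al α u v * al α u' v := by simp [al]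
theorem al_add_r (u v v' : V) : al α u (v + v') = al α u v * al α u v' := by simp [al]
theorem al_neg_l (u v : V) : al α (-u) v = (al α u v)⁻¹ := by simp [al]
theorem al_neg_r (u v : V) : al α u (-v) = (al α u v)⁻¹ := by simp [al]
@[simp] theorem al_zero_l (v : V) : al α 0 v = 1 := by simp [al]
@[simp] theorem al_zero_r (v : V) : al α v 0 = 1 := by simp [al]

@[ext] structure GG (α : V →ₗ[ℤ] V →ₗ[ℤ] Additive Qˣ) where
  m : V → Q
  v : V
  r : Qˣ

instance : Mul (GG α) := ⟨fun g h =>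
  ⟨fun w => g.m w + (g.r * al α w g.v : Qˣ) * h.m (w + g.v), g.v + h.v, g.r * h.r * al α g.v h.v⟩⟩
instance : One (GG α) := ⟨⟨0, 0, 1⟩⟩
instance : Inv (GG α) := ⟨fun g =>
  ⟨fun w => -((g.r⁻¹ * al α g.v g.v * al α w (-g.v) : Qˣ) * g.m (w + -g.v)), -g.v,
    g.r⁻¹ * al α g.v g.v⟩⟩

theorem mul_m (g h : GG α) (w : V) :
    (g * h).m w = g.m w + (g.r * al α w g.v : Qˣ) * h.m (w + g.v) := rfl
theorem mul_v (g h : GG α) : (g * h).v = g.v + h.v := rfl
theorem mul_r (g h : GG α) : (g * h).r = g.r * h.r * al α g.v h.v := rfl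
theorem one_m (w : V) : (1 : GG α).m w = 0 := rfl
theorem one_v : (1 : GG α).v = 0 := rfl
theorem one_r : (1 : GG α).r = 1 := rfl
theorem inv_m (g : GG α) (w : V) : (g⁻¹).m w =
    -((g.r⁻¹ * al α g.v g.v * al α w (-g.v) : Qˣ) * g.m (w + -g.v)) := rfl
theorem inv_v (g : GG α) : (g⁻¹).v = -g.v := rfl
theorem inv_r (g : GG α) : (g⁻¹).r = g.r⁻¹ * al α g.v g.v := rfl

instance : Group (GG α) := Group.ofLeftAxioms
  (fun a b c => by
    ext w
    · simp only [mul_m, mul_v, mul_r, al_add_l, al_add_r, Units.val_mul, add_assoc]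
      ring
    · simp only [mul_v, add_assoc]
    · simp only [mul_v, mul_r, al_add_l, al_add_r, Units.val_mul]
      ring)
  (fun a => by
    ext w
    · simp [mul_m, one_m, one_v, one_r]
    · simp [mul_v, one_v]
    · simp [mul_r, one_v, one_r])
  (fun a => by
    ext w
    · simp [mul_m, inv_m, inv_v, inv_r, one_m]
    · simp [mul_v, inv_v, one_v]
    · simp only [mul_r, inv_r, inv_v, one_r, al_neg_l]
      congr 1
      rw [mul_right_comm, mul_inv_cancel_right, inv_mul_cancel])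

def ofM (m : V → Q) : GG α := ⟨m, 0, 1⟩

def InM (g : GG α) : Prop := g.v = 0 ∧ g.r = 1

theorem InM.eq {g : GG α} (h : InM g) : g = ofM g.m := by
  ext w
  · rfl
  · exact h.1
  · rw [h.2]; rfl

theorem inM_ofM (m : V → Q) : InM (ofM m : GG α) := ⟨rfl, rfl⟩

theorem ofM_mul (m m' : V → Q) : (ofM m * ofM m' : GG α) = ofM (m + m') := by
  ext w
  · simp [mul_m, ofM]
  · simp [mul_v, ofM]
  · simp [mul_r, ofM]

theorem ofM_zero : (ofM 0 : GG α) = 1 := rfl

theorem ofM_inv (m : V → Q) : (ofM m : GG α)⁻¹ = ofM (-m) := by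
  rw [inv_eq_iff_mul_eq_one, ofM_mul, add_neg_cancel, ofM_zero]

theorem conj_ofM (g : GG α) (m : V → Q) :
    g * ofM m * g⁻¹ = ofM fun w => (g.r * al α w g.v : Qˣ) * m (w + g.v) := by
  rw [mul_inv_eq_iff_eq_mul]
  ext w
  · simp [mul_m, ofM, add_comm]
  · simp [mul_v, ofM]
  · simp [mul_r, ofM]

theorem gcomm_v (x y : GG α) : (gcomm x y).v = 0 := by
  simp only [gcomm, mul_v, inv_v]; abel

theorem gcomm_r (x y : GG α) : (gcomm x y).r = al α x.v y.v * (al α y.v x.v)⁻¹ := by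
  simp only [gcomm, mul_v, inv_v, mul_r, inv_r, al_add_l, al_neg_l, al_neg_r, inv_inv]
  apply Additive.ofMul.injective
  simp only [ofMul_mul, ofMul_inv]
  abel

theorem gcomm3 (x y z : GG α) : InM (gcomm (gcomm x y) z) :=
  ⟨gcomm_v _ _, by rw [gcomm_r, gcomm_v]; simp⟩

theorem gcomm_inM {x y : GG α} (hx : InM x) (hy : InM y) : gcomm x y = 1 := by
  rw [hx.eq, hy.eq, gcomm, ofM_inv, ofM_inv, ofM_mul, ofM_mul, ofM_mul, ← ofM_zero]
  congr 1
  abel

theorem map_gcomm {G H : Type*} [Group G] [Group H] (f : G →* H) (x y : G) :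
    f (gcomm x y) = gcomm (f x) (f y) := by simp [gcomm]

theorem w0_law (θ : ℕ → GG α) : FreeGroup.lift θ w0 = 1 := by
  simp only [w0, map_gcomm]
  exact gcomm_inM (gcomm3 _ _ _) (gcomm3 _ _ _)

theorem gcomm_ofM (m : V → Q) (g : GG α) : gcomm (ofM m) g =
    ofM fun w => -m w + (g⁻¹.r * al α w g⁻¹.v : Qˣ) * m (w + g⁻¹.v) := by
  have := conj_ofM g⁻¹ m
  rw [inv_inv] at this
  rw [gcomm, mul_assoc, mul_assoc, ← mul_assoc g⁻¹, this, ofM_inv, ofM_mul]
  rfl

theorem witness (e : V) (he : e ≠ 0) (he2 : e + e ≠ 0) : ∃ x y : GG α,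
    (gcomm (gcomm x y) y).m 0 = 1 := by
  classical
  refine ⟨ofM fun w => if w = 0 then 1 else 0, ⟨0, e, 1⟩, ?_⟩
  rw [gcomm_ofM, gcomm_ofM]
  have h2 : -e + -e ≠ 0 := by
    rw [← neg_add, neg_ne_zero]; exact he2
  simp [ofM, inv_v, he, h2]

theorem rep {R : Type} [CommRing R] (β : V → V → R) (Q : ℕ → Type) [∀ j, CommRing (Q j)]
    (α : ∀ j, V →ₗ[ℤ] V →ₗ[ℤ] Additive (Q j)ˣ) (κ : ∀ j, R →+* Q j)
    (hκ : ∀ j u v, κ j (β u v) = (al (α j) u v * (al (α j) v u)⁻¹ : (Q j)ˣ))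
    {r : (ℕ → V) → R}
    (hr : r ∈ Subring.closure {z : (ℕ → V) → R | ∃ a b, z = fun v => β (v a) (v b)}) :
    ∀ u : FreeGroup ℕ, (∀ j (θ : ℕ → GG (α j)), InM (FreeGroup.lift θ u)) →
      ∃ w : FreeGroup ℕ, ∀ j (θ : ℕ → GG (α j)), FreeGroup.lift θ w =
        ofM fun x => κ j (r fun a => (θ (a + 3)).v) * (FreeGroup.lift θ u).m x := by
  induction hr using Subring.closure_induction with
  | mem z hz =>
    obtain ⟨a, b, rfl⟩ := hz
    intro u hu
    refine ⟨gcomm (FreeGroup.of (a + 3)) (FreeGroup.of (b + 3)) * u *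
      (gcomm (FreeGroup.of (a + 3)) (FreeGroup.of (b + 3)))⁻¹, fun j θ => ?_⟩
    rw [map_mul, map_mul, map_inv, map_gcomm, FreeGroup.lift_apply_of, FreeGroup.lift_apply_of,
      (hu j θ).eq, conj_ofM, gcomm_r, gcomm_v, hκ]
    simp [ofM]
  | zero =>
    intro u _
    refine ⟨1, fun j θ => ?_⟩
    rw [map_one, ← ofM_zero]
    congr 1
    funext x
    simp
  | one =>
    intro u hu
    refine ⟨u, fun j θ => ?_⟩
    conv_lhs => rw [(hu j θ).eq]
    congr 1
    funext x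
    simp
  | add a b _ _ ha hb =>
    intro u hu
    obtain ⟨w1, h1⟩ := ha u hu
    obtain ⟨w2, h2⟩ := hb u hu
    refine ⟨w1 * w2, fun j θ => ?_⟩
    rw [map_mul, h1, h2, ofM_mul]
    congr 1
    funext x
    simp [add_mul]
  | neg a _ ha =>
    intro u hu
    obtain ⟨w1, h1⟩ := ha u hu
    refine ⟨w1⁻¹, fun j θ => ?_⟩
    rw [map_inv, h1, ofM_inv]
    congr 1
    funext x
    simp
  | mul a b _ _ ha hb =>
    intro u hu
    obtain ⟨w2, h2⟩ := hb u hu
    obtain ⟨w1, h1⟩ := ha w2 fun j θ => by rw [h2]; exact inM_ofM _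
    refine ⟨w1, fun j θ => ?_⟩
    rw [h1, h2]
    congr 1
    funext x
    simp [ofM, mul_assoc]

theorem exists_alpha {A : Type} [AddCommGroup A] (B : (ℕ →₀ ℤ) →ₗ[ℤ] (ℕ →₀ ℤ) →ₗ[ℤ] A)
    (h0 : ∀ u, B u u = 0) (h1 : ∀ u v, B u v = -B v u) :
    ∃ α : (ℕ →₀ ℤ) →ₗ[ℤ] (ℕ →₀ ℤ) →ₗ[ℤ] A, ∀ u v, B u v = α u v - α v u := by
  let α : (ℕ →₀ ℤ) →ₗ[ℤ] (ℕ →₀ ℤ) →ₗ[ℤ] A := Finsupp.linearCombination ℤ fun a =>
    Finsupp.linearCombination ℤ fun b =>
      if a < b then B (Finsupp.single a 1) (Finsupp.single b 1) else 0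
  refine ⟨α, fun u v => ?_⟩
  have : B = α - α.flip := by
    ext a b
    simp only [LinearMap.comp_apply, Finsupp.lsingle_apply, LinearMap.sub_apply,
      LinearMap.flip_apply, α, Finsupp.linearCombination_single, one_smul]
    rcases lt_trichotomy a b with h | rfl | h
    · simp [h, h.not_gt]
    · simp [h0]
    · simp only [h, h.not_gt, if_true, if_false, zero_sub]
      exact h1 _ _
  rw [this]
  rfl

universe u

theorem not_fin_based (G : ℕ → Type) [∀ j, Group (G j)]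
    (h0 : ∀ j (θ : ℕ → G j), FreeGroup.lift θ w0 = 1)
    (h1 : ∀ k, ∃ v : FreeGroup ℕ, (∀ j, k < j → ∀ θ : ℕ → G j, FreeGroup.lift θ v = 1) ∧
      ∃ θ : ℕ → G k, FreeGroup.lift θ v ≠ 1) :
    ∃ S : Set (FreeGroup ℕ), w0 ∈ S ∧
      ¬ ∃ T : Finset (FreeGroup ℕ), ∀ (H : Type u) [Group H], Satisfies H S ↔ Satisfies H T := by
  let N : Subgroup (FreeGroup ℕ) :=
    { carrier := {w | ∃ K, ∀ j, K ≤ j → ∀ θ : ℕ → G j, FreeGroup.lift θ w = 1}
      one_mem' := ⟨0, fun _ _ _ => map_one _⟩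
      mul_mem' := fun ⟨K, h⟩ ⟨K', h'⟩ => ⟨max K K', fun j hj θ => by
        rw [map_mul, h j (le_of_max_le_left hj), h' j (le_of_max_le_right hj), mul_one]⟩
      inv_mem' := fun ⟨K, h⟩ => ⟨K, fun j hj θ => by rw [map_inv, h j hj, inv_one]⟩ }
  have : N.Normal := ⟨fun w ⟨K, h⟩ g => ⟨K, fun j hj θ => by simp [h j hj]⟩⟩
  have up : ∀ (H : Type) [Group H] (S : Set (FreeGroup ℕ)),
      Satisfies (ULift.{u} H) S ↔ Satisfies H S := by
    intro H _ S
    constructor
    · intro h w hw f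
      have := h w hw fun a => ULift.up (f a)
      have e : (FreeGroup.lift f : FreeGroup ℕ →* H) =
          (MulEquiv.ulift : ULift.{u} H ≃* H).toMonoidHom.comp (FreeGroup.lift fun a => ULift.up (f a)) := by
        ext a; simp; rfl
      rw [e, MonoidHom.comp_apply, this, map_one]
    · intro h w hw f
      have := h w hw fun a => (f a).down
      have e : (FreeGroup.lift f : FreeGroup ℕ →* ULift.{u} H) =
          (MulEquiv.ulift : ULift.{u} H ≃* H).symm.toMonoidHom.comp (FreeGroup.lift fun a => (f a).down) := by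
        ext a; simp; rfl
      rw [e, MonoidHom.comp_apply, this, map_one]
  refine ⟨N, ⟨0, fun j _ θ => h0 j θ⟩, fun ⟨T, hT⟩ => ?_⟩
  have hT' : ∀ (H : Type) [Group H], Satisfies H N ↔ Satisfies H T := fun H _ => by
    rw [← up H, ← up H]; exact hT _
  have hq : Satisfies (FreeGroup ℕ ⧸ N) N := by
    rintro w ⟨K, hw⟩ f
    choose g hg using fun a => QuotientGroup.mk_surjective (f a)
    have e : (FreeGroup.lift f : FreeGroup ℕ →* FreeGroup ℕ ⧸ N) =
        (QuotientGroup.mk' N).comp (FreeGroup.lift g) := by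
      ext a; simp [hg]
    rw [e, MonoidHom.comp_apply, QuotientGroup.mk'_apply, QuotientGroup.eq_one_iff]
    refine ⟨K, fun j hj θ => ?_⟩
    have e2 : (FreeGroup.lift θ).comp (FreeGroup.lift g) =
        FreeGroup.lift fun a => FreeGroup.lift θ (g a) := by
      ext a; simp
    rw [← MonoidHom.comp_apply, e2]
    exact hw j hj _
  have hTN : ∀ t ∈ T, t ∈ N := by
    intro t ht
    have := (hT' _).1 hq t ht fun a => QuotientGroup.mk (FreeGroup.of a)
    have e : (FreeGroup.lift fun a => (QuotientGroup.mk (FreeGroup.of a) : FreeGroup ℕ ⧸ N)) =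
        QuotientGroup.mk' N := by
      ext a; simp
    rwa [e, QuotientGroup.mk'_apply, QuotientGroup.eq_one_iff] at this
  choose K hK using hTN
  classical
  let k := T.attach.sup fun t => K t.1 t.2
  have hk : Satisfies (G k) T := fun t ht f =>
    hK t ht k (Finset.le_sup (f := fun t : {x // x ∈ T} => K t.1 t.2) (Finset.mem_attach _ ⟨t, ht⟩)) f
  obtain ⟨v, hv, θ, hθ⟩ := h1 k
  exact hθ ((hT' _).2 hk v ⟨k + 1, fun j hj => hv j hj⟩ θ)

end Pool.Agent.MP_8fd8e7_al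

end

-- part MP_8fd8e7_al.Main
section

/-! The three-colour exterior algebra model and the main theorem. -/

namespace Pool.Agent.MP_8fd8e7_al

abbrev TT : Type := ExteriorAlgebra ℤ (Fin 3 → VV)

noncomputable def xi (p : Fin 3 × VV) : TT := ExteriorAlgebra.ι ℤ (Pi.single p.1 p.2 : Fin 3 → VV)

theorem io_anti (m n : Fin 3 → VV) : (ExteriorAlgebra.ι ℤ m * ExteriorAlgebra.ι ℤ n : TT) =
    -(ExteriorAlgebra.ι ℤ n * ExteriorAlgebra.ι ℤ m) :=
  eq_neg_of_add_eq_zero_left (ExteriorAlgebra.ι_add_mul_swap m n)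

theorem xi_anti (p q : Fin 3 × VV) : xi p * xi q = -(xi q * xi p) := io_anti _ _

theorem xi_center (p q : Fin 3 × VV) : xi p * xi q ∈ Subring.center TT := by
  rw [Subring.mem_center_iff]
  intro g
  induction g using ExteriorAlgebra.induction with
  | algebraMap r => exact Algebra.commutes _ _
  | ι m =>
    unfold xi
    rw [← mul_assoc, io_anti m, neg_mul, mul_assoc, io_anti m, mul_neg, neg_neg, mul_assoc]
  | mul a b ha hb => rw [mul_assoc, hb, ← mul_assoc, ha, mul_assoc]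
  | add a b ha hb => rw [add_mul, mul_add, ha, hb]

abbrev CZ : Type := Subring.center TT

noncomputable def S0 : YS CZ VV where
  y p q := ⟨xi p * xi q, xi_center p q⟩
  anti p q := Subtype.ext (xi_anti p q)
  diag p := Subtype.ext (ExteriorAlgebra.ι_sq_zero _)
  pl p q r t := Subtype.ext (by
    show xi p * xi q * (xi r * xi t) = -(xi p * xi r * (xi q * xi t))
    rw [mul_assoc, ← mul_assoc (xi q), xi_anti q r, neg_mul, mul_neg, mul_assoc, mul_assoc])

noncomputable def S1 : YS ((ℕ → VV) → CZ) ℕ where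
  y p q := fun v => S0.y (p.1, v p.2) (q.1, v q.2)
  anti _ _ := funext fun _ => S0.anti _ _
  diag _ := funext fun _ => S0.diag _
  pl _ _ _ _ := funext fun _ => S0.pl _ _ _ _

theorem CZ_two {x y : CZ} (h : x + x = y + y) : x = y := by
  classical
  let b := Module.Free.chooseBasis ℤ (Fin 3 → VV)
  let _ : LinearOrder (Module.Free.ChooseBasisIndex ℤ (Fin 3 → VV)) := linearOrderOfSTO WellOrderingRel
  have : Module.Free ℤ TT := Module.Free.of_basis b.ExteriorAlgebra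
  have h2 : (2 : ℤ) • (x : TT) = (2 : ℤ) • (y : TT) := by
    rw [two_smul, two_smul]
    exact congrArg Subtype.val h
  exact Subtype.ext (smul_right_injective TT (by norm_num) h2)

noncomputable def rho0 : (Fin 3 → VV) →ₗ[ℤ] BB :=
  Xv 0 ∘ₗ LinearMap.proj 0 + Xv 1 ∘ₗ LinearMap.proj 1 + Xv 2 ∘ₗ LinearMap.proj 2

theorem rho0_sq (m : Fin 3 → VV) : rho0 m * rho0 m = 0 :=
  sq_add (sq_add (Xv_sq _ _) (Xv_sq _ _)) (Xv_sq _ _)

noncomputable def rhoT : TT →ₐ[ℤ] BB := ExteriorAlgebra.lift ℤ ⟨rho0, rho0_sq⟩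

theorem rhoT_xi (p : Fin 3 × VV) : rhoT (xi p) = Xv p.1 p.2 := by
  obtain ⟨i, v⟩ := p
  rw [rhoT, xi, ExteriorAlgebra.lift_ι_apply]
  rcases YS.fin3 i with rfl | rfl | rfl <;> simp [rho0]

noncomputable def rho : CZ →+* BB := rhoT.toRingHom.comp (Subring.center TT).subtype

theorem rho_y (p q : Fin 3 × VV) : rho (S0.y p q) = Xv p.1 p.2 * Xv q.1 q.2 := by
  show rhoT (xi p * xi q) = _
  rw [map_mul, rhoT_xi, rhoT_xi]

theorem inv_of {z : BB} {n : ℤ} (h : z - n ∈ KK) : sg z = z := by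
  have := KK_inv h
  rw [map_sub, map_intCast] at this
  exact sub_left_injective this

noncomputable def RP : Subring CZ where
  carrier := {x | ∃ n : ℤ, rho x - n ∈ KK}
  one_mem' := ⟨1, by simp⟩
  zero_mem' := ⟨0, by simp⟩
  add_mem' := fun ⟨n, h⟩ ⟨n', h'⟩ => ⟨n + n', by
    refine (congrArg (· ∈ KK) ?_).mp (add_mem h h')
    rw [map_add]; push_cast; ring⟩
  neg_mem' := fun ⟨n, h⟩ => ⟨n, by rw [map_neg, negB]; exact h⟩
  mul_mem' := fun {a b} ⟨n, h⟩ ⟨n', h'⟩ => ⟨n * n', by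
    have h1 := KK_mul (inv_of h') h
    have h2 := KK_mul (w := (n : BB)) (map_intCast _ _) h'
    refine (congrArg (· ∈ KK) ?_).mp (add_mem h1 h2)
    rw [map_mul]; push_cast; ring⟩

noncomputable def lamH (l : List ℕ) : BB →+ ZMod 2 := ⟨⟨lam l, lam_zero l⟩, lam_add l⟩

noncomputable def JJ (l : List ℕ) : Ideal RP where
  carrier := {r | ∃ x : CZ, sg (rho x) = rho x ∧ lam l (rho x) = 0 ∧ (r : CZ) = x + x}
  zero_mem' := ⟨0, by simp, by simp [lam_zero], by simp⟩
  add_mem' := fun ⟨x, h1, h2, h3⟩ ⟨x', h1', h2', h3'⟩ => ⟨x + x', by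
    rw [map_add, map_add, h1, h1'], by rw [map_add, lam_add, h2, h2', add_zero], by
    rw [Subring.coe_add, h3, h3']; ring⟩
  smul_mem' := fun c r ⟨x, h1, h2, h3⟩ => by
    obtain ⟨n, hn⟩ := c.2
    refine ⟨c * x, by rw [map_mul, map_mul, h1, inv_of hn], ?_, by
      rw [smul_eq_mul, Subring.coe_mul, h3]; ring⟩
    have e : rho (c * x) = rho x * (rho c - n) + n • rho x := by
      rw [map_mul, zsmul_eq_mul]; ring
    have a1 := lam_KK l (KK_mul h1 hn)
    have a2 : lam l (n • rho x) = n • lam l (rho x) := map_zsmul (lamH l) n _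
    rw [e, lam_add, a1, a2, h2, smul_zero, add_zero]

noncomputable def be (u v : VV) : RP := ⟨S0.bb u v, 1, by
  simp only [YS.bb, YS.x, map_mul, map_add, map_one, rho_y, Int.cast_one]
  exact bb_mem u v⟩

theorem bb_inv (u v : VV) : S0.bb u v * S0.bb v u = 1 := by
  have h : ∀ i, (1 + S0.x i u v) * (1 + S0.x i v u) = 1 := fun i => by
    have h1 : S0.x i v u = -S0.x i u v := S0.anti _ _
    have h2 : S0.x i u v * S0.x i u v = 0 := S0.sh11 _ _ _
    rw [h1]
    linear_combination (-1 : CZ) * h2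
  calc _ = ((1 + S0.x 0 u v) * (1 + S0.x 0 v u)) * ((1 + S0.x 1 u v) * (1 + S0.x 1 v u)) *
        ((1 + S0.x 2 u v) * (1 + S0.x 2 v u)) := by unfold YS.bb; ring
    _ = 1 := by rw [h, h, h]; ring

theorem xi_add (i : Fin 3) (u u' : VV) : xi (i, u + u') = xi (i, u) + xi (i, u') := by
  simp only [xi, Pi.single_add, map_add]

theorem x_add_l (i : Fin 3) (u u' v : VV) : S0.x i (u + u') v = S0.x i u v + S0.x i u' v :=
  Subtype.ext (by
    show xi (i, u + u') * xi (i, v) = xi (i, u) * xi (i, v) + xi (i, u') * xi (i, v)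
    rw [xi_add, add_mul])

theorem x_add_r (i : Fin 3) (u v v' : VV) : S0.x i u (v + v') = S0.x i u v + S0.x i u v' :=
  Subtype.ext (by
    show xi (i, u) * xi (i, v + v') = xi (i, u) * xi (i, v) + xi (i, u) * xi (i, v')
    rw [xi_add, mul_add])

theorem bb_add_l (u u' v : VV) : S0.bb (u + u') v = S0.bb u v * S0.bb u' v := by
  have h : ∀ i, 1 + S0.x i (u + u') v = (1 + S0.x i u v) * (1 + S0.x i u' v) := fun i => by
    have h2 : S0.x i u v * S0.x i u' v = 0 := S0.sh22 _ _ _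
    rw [x_add_l]
    linear_combination (-1 : CZ) * h2
  unfold YS.bb
  rw [h, h, h]; ring

theorem bb_add_r (u v v' : VV) : S0.bb u (v + v') = S0.bb u v * S0.bb u v' := by
  have h : ∀ i, 1 + S0.x i u (v + v') = (1 + S0.x i u v) * (1 + S0.x i u v') := fun i => by
    have h2 : S0.x i u v * S0.x i u v' = 0 := S0.sh11 _ _ _
    rw [x_add_r]
    linear_combination (-1 : CZ) * h2
  unfold YS.bb
  rw [h, h, h]; ring

noncomputable def beU (u v : VV) : RPˣ :=
  ⟨be u v, be v u, Subtype.ext (bb_inv u v), Subtype.ext (bb_inv v u)⟩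

noncomputable def BL : VV →ₗ[ℤ] VV →ₗ[ℤ] Additive RPˣ :=
  (AddMonoidHom.mk' (fun u => (AddMonoidHom.mk' (fun v => Additive.ofMul (beU u v))
    (fun v v' => by
      rw [← ofMul_mul]
      exact congrArg _ (Units.ext (Subtype.ext (bb_add_r u v v'))))).toIntLinearMap)
    (fun u u' => LinearMap.ext fun v => by
      show Additive.ofMul (beU (u + u') v) = Additive.ofMul (beU u v) + Additive.ofMul (beU u' v)
      rw [← ofMul_mul]
      exact congrArg _ (Units.ext (Subtype.ext (bb_add_l u u' v))))).toIntLinearMap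

theorem BL_apply (u v : VV) : BL u v = Additive.ofMul (beU u v) := rfl

theorem exists_al : ∃ α : VV →ₗ[ℤ] VV →ₗ[ℤ] Additive RPˣ, ∀ u v, BL u v = α u v - α v u := by
  refine exists_alpha BL (fun u => ?_) (fun u v => ?_)
  · rw [BL_apply, ← ofMul_one]
    refine congrArg _ (Units.ext (Subtype.ext ?_))
    show S0.bb u u = 1
    simp [YS.bb, YS.x, S0.diag]
  · rw [BL_apply, BL_apply, ← ofMul_inv]
    exact congrArg _ (Units.ext rfl)

theorem rho_Mt (v : ℕ → VV) : ∀ L : List ℕ, Even L.length →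
    rho (Mt L S1.th v) - ZZ (L.map v) ∈ KK := by
  refine even_ind ?_ ?_
  · simp [ZZ_nil]
  · intro a b l _ ih
    have hM : sg (rho (Mt l S1.th v)) = rho (Mt l S1.th v) := by
      have := KK_inv ih
      rw [map_sub, sg_ZZ] at this
      exact sub_left_injective this
    have h1 := KK_mul hM (gg_mem (v a) (v b))
    have h2 := KK_mul (w := Xv 2 (v a) * Xv 2 (v b)) (by rw [map_mul, sg_X2, sg_X2]) ih
    refine (congrArg (· ∈ KK) ?_).mp (add_mem h1 h2)
    have e : rho (S1.gg a b v) = (Xv 0 (v a) * Xv 0 (v b)) * (Xv 1 (v a) * Xv 1 (v b)) +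
        (Xv 0 (v a) * Xv 0 (v b)) * (Xv 2 (v a) * Xv 2 (v b)) +
        (Xv 1 (v a) * Xv 1 (v b)) * (Xv 2 (v a) * Xv 2 (v b)) := by
      show rho (S0.gg (v a) (v b)) = _
      simp only [YS.gg, YS.x, map_add, map_mul, rho_y]
    rw [Mt_cons, YS.dot_th, Pi.mul_apply, Pi.neg_apply, map_mul, map_neg, negB, e, List.map_cons,
      List.map_cons, ZZ_cons, ZZ_cons]
    linear_combination (rho (Mt l S1.th v) * Xv 2 (v a) * Xv 2 (v b)) * twoB

theorem lam_Mt (l : List ℕ) (v : ℕ → VV) (L : List ℕ) (h : Even L.length) :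
    lam l (rho (Mt L S1.th v)) = lam l (ZZ (L.map v)) := by
  have := lam_add l (rho (Mt L S1.th v) - ZZ (L.map v)) (ZZ (L.map v))
  rw [sub_add_cancel, lam_KK l (rho_Mt v L h), zero_add] at this
  exact this

theorem exists_r (k : ℕ) : ∃ r ∈ Subring.closure
    {z : (ℕ → VV) → RP | ∃ a b, z = fun v => be (v a) (v b)},
    ∀ v, (r v : CZ) = Mt (List.range (2 * k + 6)) S1.th v + Mt (List.range (2 * k + 6)) S1.th v := by
  have h := S1.two_Mt_mem k (List.range (2 * k + 6)) (by simp) List.nodup_range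
  let f : ((ℕ → VV) → RP) →+* ((ℕ → VV) → CZ) := RP.subtype.compLeft _
  have : S1.RR ≤ (Subring.closure
      {z : (ℕ → VV) → RP | ∃ a b, z = fun v => be (v a) (v b)}).map f := by
    rw [YS.RR, Subring.closure_le]
    rintro _ ⟨a, b, rfl⟩
    exact ⟨_, Subring.subset_closure ⟨a, b, rfl⟩, rfl⟩
  obtain ⟨r, hr, e⟩ := this h
  exact ⟨r, hr, fun v => congrFun e v⟩

def QQ (j : ℕ) : Type := RP ⧸ JJ (List.range (2 * j + 6))

noncomputable instance (j : ℕ) : CommRing (QQ j) :=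
  inferInstanceAs (CommRing (RP ⧸ JJ (List.range (2 * j + 6))))

universe u

theorem main : ∃ S : Set (FreeGroup ℕ), w0 ∈ S ∧
    ¬ ∃ T : Finset (FreeGroup ℕ), ∀ (H : Type u) [Group H], Satisfies H S ↔ Satisfies H T := by
  obtain ⟨α0, hα⟩ := exists_al
  let κ : ∀ j, RP →+* QQ j := fun j => Ideal.Quotient.mk _
  let α : ∀ j, VV →ₗ[ℤ] VV →ₗ[ℤ] Additive (QQ j)ˣ := fun j =>
    α0.compr₂ (MonoidHom.toAdditive (Units.map (κ j).toMonoidHom)).toIntLinearMap
  have hκ : ∀ j u v, κ j (be u v) = (al (α j) u v * (al (α j) v u)⁻¹ : (QQ j)ˣ) := by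
    intro j u v
    have h1 : beU u v = al α0 u v * (al α0 v u)⁻¹ := by
      have := congrArg Additive.toMul (hα u v)
      rw [BL_apply, toMul_ofMul, toMul_sub, div_eq_mul_inv] at this
      exact this
    have h2 : ∀ u v, al (α j) u v = Units.map (κ j).toMonoidHom (al α0 u v) := fun _ _ => rfl
    rw [h2, h2, ← map_inv, ← map_mul, ← h1]
    rfl
  refine not_fin_based (fun j => GG (α j)) (fun j θ => w0_law θ) fun k => ?_
  obtain ⟨r, hr, e⟩ := exists_r k
  have hev : Even (List.range (2 * k + 6)).length := ⟨k + 3, by simp; ring⟩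
  obtain ⟨w, hw⟩ := rep be QQ α κ hκ hr
    (gcomm (gcomm (FreeGroup.of 0) (FreeGroup.of 1)) (FreeGroup.of 1))
    (fun j θ => by simp only [map_gcomm]; exact gcomm3 _ _ _)
  refine ⟨w, fun j hj θ => ?_, ?_⟩
  · have : κ j (r fun a => (θ (a + 3)).v) = 0 := by
      refine Ideal.Quotient.eq_zero_iff_mem.2 ⟨_, ?_, ?_, e _⟩
      · have := KK_inv (rho_Mt (fun a => (θ (a + 3)).v) _ hev)
        rw [map_sub, sg_ZZ] at this
        exact sub_left_injective this
      · rw [lam_Mt _ _ _ hev]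
        exact lam_ZZ_lt _ _ (by simp; omega)
    rw [hw, this, ← ofM_zero]
    congr 1
    funext x
    simp
  · have he : ev 0 ≠ 0 := by simp [ev]
    have he2 : ev 0 + ev 0 ≠ 0 := by
      rw [ev, ← Finsupp.single_add]; simp
    obtain ⟨x, y, hxy⟩ := witness (α := α k) (ev 0) he he2
    let θ : ℕ → GG (α k) := fun a => if a = 0 then x else if a = 1 then y else ⟨0, ev (a - 3), 1⟩
    refine ⟨θ, fun h => ?_⟩
    have h1 := congrArg (fun g : GG (α k) => g.m 0) (hw k θ)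
    have hv : (fun a => (θ (a + 3)).v) = ev := by
      funext a
      simp [θ]
    have h0 : θ 0 = x := by simp [θ]
    have h1' : θ 1 = y := by simp [θ]
    simp only [h, one_m, ofM, map_gcomm, FreeGroup.lift_apply_of, hv, h0, h1', hxy, mul_one] at h1
    obtain ⟨z, -, hz2, hz3⟩ := Ideal.Quotient.eq_zero_iff_mem.1 h1.symm
    rw [e] at hz3
    rw [← CZ_two hz3, lam_Mt _ _ _ hev, lam_ZZ_self _ List.nodup_range] at hz2
    exact one_ne_zero hz2

end Pool.Agent.MP_8fd8e7_al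

end
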